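import Pool.Agent.Q116.CW.Stair

/-! # Clique-width: the asymptotics in the polynomial regime -/

set_option autoImplicit false

namespace Q116.CW

open Filter Asymptotics

lemma log_four_le : Real.log 4 ≤ 2 := by
  rw [Real.log_le_iff_le_exp (by norm_num)]
  have h2 : (2.7182 : ℝ) ≤ Real.exp 1 := by
    have := Real.exp_one_gt_d9
    linarith
  calc (4 : ℝ) ≤ 2.7182 ^ 2 := by norm_num
    _ ≤ (Real.exp 1) ^ 2 := by gcongr
    _ = Real.exp 2 := by rw [← Real.exp_nat_mul]; norm_num

theorem stair_upper (ε : ℝ) (hε : 0 < ε) (hε1 : ε < 1) : ∃ w0 : ℕ, ∀ w ≥ w0, ∀ k : ℕ, 2 ≤ k →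
    Real.log (Rcw w k) ≤ (⌈(1 + ε) * (Real.log k / Real.log (Real.log w))⌉ - 1 +
      ε * (1 + Real.log k / Real.log (Real.log w))) * Real.log w := by
  set ε' : ℝ := ε / 6 with hε'
  have hε'0 : 0 < ε' := by positivity
  have hε'1 : ε' < 1 := by rw [hε']; linarith
  set η : ℝ := ε / (1 + ε) with hη
  have hη0 : 0 < η := by positivity
  have hη1 : η < 1 := by
    rw [hη, div_lt_one (by linarith)]; linarith
  have hη' : (1 - η) * (1 + ε) = 1 := by
    rw [hη]; field_simp; ring
  have ev : ∀ᶠ L : ℝ in atTop, 3 ≤ L ∧ Real.log L ≤ ε' * L ^ (η / 2) ∧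
      12 / ε' ≤ L ^ (η / 2) := by
    have h1 := (isLittleO_log_rpow_atTop (r := η / 2) (by positivity)).bound hε'0
    have h2 : Tendsto (fun L : ℝ => L ^ (η / 2)) atTop atTop :=
      tendsto_rpow_atTop (by positivity)
    filter_upwards [h1, h2.eventually_ge_atTop (12 / ε'), eventually_ge_atTop 3] with L a1 a2 a3
    refine ⟨a3, ?_, a2⟩
    have : 0 ≤ Real.log L := Real.log_nonneg (by linarith)
    rw [Real.norm_of_nonneg this, Real.norm_of_nonneg (by positivity)] at a1
    exact a1
  obtain ⟨L0, hL0⟩ := eventually_atTop.1 ev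
  obtain ⟨w0, hw0⟩ := exists_nat_ge (max 1 (Real.exp L0))
  refine ⟨w0, ?_⟩
  intro w hw k hk
  have hw0w : (w0 : ℝ) ≤ w := by exact_mod_cast hw
  have hwR : (1 : ℝ) ≤ w := ((le_max_left _ _).trans hw0).trans hw0w
  have hw1 : 1 ≤ w := by exact_mod_cast hwR
  have hwpos : (0 : ℝ) < w := by linarith
  have hLL : L0 ≤ Real.log w := by
    rw [Real.le_log_iff_exp_le hwpos]
    exact ((le_max_right _ _).trans hw0).trans hw0w
  set L := Real.log w with hL
  obtain ⟨c1, c2, c3⟩ := hL0 L hLL
  have hL0 : 0 < L := by linarith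
  have hlogL : 0 < Real.log L := Real.log_pos (by linarith)
  set y := L ^ (η / 2) with hy
  have hy12 : 12 ≤ y := by
    have : 12 ≤ 12 / ε' := by
      rw [le_div_iff₀ hε'0]; linarith
    linarith
  have hy0 : 0 < y := by linarith
  have hyε : 12 ≤ ε' * y := by
    rw [div_le_iff₀' hε'0] at c3
    exact c3
  have hyL : y ≤ L := by
    calc y ≤ L ^ (1 : ℝ) := Real.rpow_le_rpow_of_exponent_le (by linarith) (by linarith)
      _ = L := Real.rpow_one L
  set z := L ^ (1 - η) with hz
  have hz1 : 1 < z := Real.one_lt_rpow (by linarith) (by linarith)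
  have hzL : z ≤ L := by
    calc z ≤ L ^ (1 : ℝ) := Real.rpow_le_rpow_of_exponent_le (by linarith) (by linarith)
      _ = L := Real.rpow_one L
  have hzy : z * y * y = L := by
    rw [hz, hy, ← Real.rpow_add hL0, ← Real.rpow_add hL0]
    have : 1 - η + η / 2 + η / 2 = 1 := by ring
    rw [this, Real.rpow_one]
  have hLy : L / y = z * y := by
    rw [div_eq_iff hy0.ne']
    exact hzy.symm
  have hLey : L ≤ Real.exp y := by
    rw [← Real.log_le_iff_le_exp hL0]
    have : ε' * y ≤ 1 * y := by gcongr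
    linarith
  set p := ⌈z⌉₊ with hp
  set q := ⌈Real.exp y⌉₊ with hq
  have hpz : z ≤ p := Nat.le_ceil z
  have hpz' : (p : ℝ) ≤ 2 * z := by
    have := Nat.ceil_lt_add_one (a := z) (by linarith)
    rw [hp]; linarith
  have hp2 : 2 ≤ p := by
    have : 1 < p := by
      rw [hp, Nat.lt_ceil]; exact_mod_cast hz1
    exact this
  have hey : 1 < Real.exp y := Real.one_lt_exp_iff.2 hy0
  have hqe : Real.exp y ≤ q := Nat.le_ceil _
  have hqe' : (q : ℝ) ≤ 2 * Real.exp y := by
    have := Nat.ceil_lt_add_one (a := Real.exp y) (by linarith)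
    rw [hq]; linarith
  have hq2 : 2 ≤ q := by
    have : 1 < q := by
      rw [hq, Nat.lt_ceil]; exact_mod_cast hey
    exact this
  have hp0 : (0 : ℝ) < p := by linarith
  have hq0 : (0 : ℝ) < q := by linarith
  -- the logarithm of `p + q`
  have hpq : Real.log (p + q) ≤ 2 * y := by
    have h1 : (p : ℝ) + q ≤ 4 * Real.exp y := by linarith
    have h2 := Real.log_le_log (by linarith) h1
    rw [Real.log_mul (by norm_num) (Real.exp_pos y).ne', Real.log_exp] at h2
    have := log_four_le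
    linarith
  have hpq0 : 0 ≤ Real.log (p + q) := Real.log_nonneg (by linarith)
  set G0 := (p + q).choose p with hG0
  have hG0pos : 0 < G0 := Nat.choose_pos (by omega)
  have hG0R : (0 : ℝ) < G0 := by exact_mod_cast hG0pos
  have hlG0 : Real.log G0 ≤ p * Real.log (p + q) := by
    have h1 : (G0 : ℝ) ≤ (p + q : ℝ) ^ p := by
      have := Nat.choose_le_pow (p + q) p
      exact_mod_cast this
    have h2 := Real.log_le_log hG0R h1
    rwa [Real.log_pow] at h2
  have hlG0n : 0 ≤ Real.log G0 := Real.log_nonneg (by exact_mod_cast hG0pos)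
  have hB : Real.log 12 + Real.log (p + q) + Real.log G0 ≤ ε' * L := by
    have h12 := log_twelve_le
    have h1 : (p : ℝ) + 1 ≤ 3 * z := by linarith
    have h2 : Real.log (p + q) + Real.log G0 ≤ (p + 1) * Real.log (p + q) := by linarith
    have h3 : ((p : ℝ) + 1) * Real.log (p + q) ≤ (3 * z) * (2 * y) := by gcongr
    have h4 : 5 / 2 ≤ 5 / 2 * (z * y) := by nlinarith
    have h5 : Real.log 12 + Real.log (p + q) + Real.log G0 ≤ 12 * (z * y) := by nlinarith
    refine h5.trans ?_
    calc 12 * (z * y) ≤ (ε' * y) * (z * y) := by gcongr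
      _ = ε' * (z * y * y) := by ring
      _ = ε' * L := by rw [hzy]
  set x := Real.log k / Real.log L with hx
  have hkR : (2 : ℝ) ≤ k := by exact_mod_cast hk
  have hk0 : (0 : ℝ) < k := by linarith
  have hlogk : 0 < Real.log k := Real.log_pos (by linarith)
  have hx0 : 0 < x := by positivity
  have hxk : Real.log k = x * Real.log L := by
    rw [hx]; field_simp
  obtain ⟨i, j, hi, hj, hR⟩ := Rcw_le_grid (w := w) (k := k) (p := p) (q := q) hw1 hk hp2 hq2
  rw [← hG0] at hR
  have hi' : (i : ℝ) < (1 + ε) * x := by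
    have h1 : ((p : ℝ)) ^ i < k := by exact_mod_cast hi
    have h2 := Real.log_lt_log (by positivity) h1
    rw [Real.log_pow] at h2
    have h3 : (1 - η) * Real.log L ≤ Real.log p := by
      have := Real.log_le_log (by positivity) hpz
      rwa [hz, Real.log_rpow hL0] at this
    have h4 : (i : ℝ) * ((1 - η) * Real.log L) < x * Real.log L := by
      rw [← hxk]
      refine lt_of_le_of_lt ?_ h2
      gcongr
    have h5 : (i : ℝ) * (1 - η) < x := by
      have : ((i : ℝ) * (1 - η)) * Real.log L < x * Real.log L := by linarith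
      exact lt_of_mul_lt_mul_right this hlogL.le
    calc (i : ℝ) = (i * (1 - η)) * (1 + ε) := by rw [mul_assoc, hη', mul_one]
      _ < x * (1 + ε) := by gcongr
      _ = (1 + ε) * x := by ring
  have hj' : (j : ℝ) ≤ ε' * x := by
    have h1 : ((q : ℝ)) ^ j < k := by exact_mod_cast hj
    have h2 := Real.log_lt_log (by positivity) h1
    rw [Real.log_pow] at h2
    have h3 : y ≤ Real.log q := by
      rw [Real.le_log_iff_exp_le hq0]; exact hqe
    have h4 : (j : ℝ) * y ≤ (ε' * x) * y := by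
      calc (j : ℝ) * y ≤ j * Real.log q := by gcongr
        _ ≤ Real.log k := h2.le
        _ = x * Real.log L := hxk
        _ ≤ x * (ε' * y) := by gcongr
        _ = (ε' * x) * y := by ring
    exact le_of_mul_le_mul_right h4 hy0
  have hic : (i : ℝ) ≤ ⌈(1 + ε) * x⌉ - 1 := by
    have h1 : (i : ℤ) < ⌈(1 + ε) * x⌉ := by
      rw [Int.lt_ceil]; exact_mod_cast hi'
    have h2 : ((i : ℤ) + 1 : ℤ) ≤ ⌈(1 + ε) * x⌉ := h1
    have h3 : ((i : ℝ) + 1) ≤ (⌈(1 + ε) * x⌉ : ℝ) := by exact_mod_cast h2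
    linarith
  -- logarithm of the bound
  have hRpos : (0 : ℝ) < Rcw w k := by
    have := two_le_Rcw hw1 hk
    exact_mod_cast (by omega : 0 < Rcw w k)
  have hR' : (Rcw w k : ℝ) ≤ 2 * ((12 * (p + q) * w * G0) ^ (i + j) * G0 * k * k) := by
    exact_mod_cast hR
  have hpq1 : (0 : ℝ) < (p : ℝ) + q := by linarith
  have hlog := Real.log_le_log hRpos hR'
  have hexp : Real.log (2 * ((12 * (p + q) * w * G0) ^ (i + j) * G0 * k * k)) =
      Real.log 2 + ((i + j) * (Real.log 12 + Real.log (p + q) + L + Real.log G0) +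
        Real.log G0 + Real.log k + Real.log k) := by
    rw [Real.log_mul (by norm_num) (by positivity), Real.log_mul (by positivity) hk0.ne',
      Real.log_mul (by positivity) hk0.ne', Real.log_mul (by positivity) hG0R.ne', Real.log_pow,
      Real.log_mul (by positivity) hG0R.ne', Real.log_mul (by positivity) hwpos.ne',
      Real.log_mul (by norm_num) hpq1.ne']
    push_cast
    ring
  rw [hexp] at hlog
  have h12 : 0 ≤ Real.log 12 := Real.log_nonneg (by norm_num)
  have hG0B : Real.log G0 ≤ ε' * L := by linarith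
  have hGB : Real.log 12 + Real.log (p + q) + L + Real.log G0 ≤ (1 + ε') * L := by linarith
  have hlog2 : Real.log 2 ≤ ε' * L := by
    have h1 : Real.log 2 ≤ 1 := by
      have := Real.log_two_lt_d9
      linarith
    have : ε' * y ≤ ε' * L := by gcongr
    linarith
  have hlk : Real.log k ≤ ε' * x * L := by
    rw [hxk]
    calc x * Real.log L ≤ x * (ε' * y) := by gcongr
      _ ≤ x * (ε' * L) := by gcongr
      _ = ε' * x * L := by ring
  have hi2 : (i : ℝ) ≤ 2 * x := by nlinarith
  have f1 : ((i : ℝ) + j) * (Real.log 12 + Real.log (p + q) + L + Real.log G0) ≤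
      i * L + 4 * (ε' * x * L) := by
    calc ((i : ℝ) + j) * (Real.log 12 + Real.log (p + q) + L + Real.log G0)
        ≤ ((i : ℝ) + j) * ((1 + ε') * L) := by gcongr
      _ = i * L + i * (ε' * L) + j * ((1 + ε') * L) := by ring
      _ ≤ i * L + (2 * x) * (ε' * L) + (ε' * x) * ((1 + 1) * L) := by gcongr
      _ = i * L + 4 * (ε' * x * L) := by ring
  have f2 : Real.log (Rcw w k) ≤ i * L + ε * (1 + x) * L := by
    have h6 : ε = 6 * ε' := by rw [hε']; ring
    have h7 : 0 ≤ ε' * L := by positivity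
    rw [h6]
    calc Real.log (Rcw w k) ≤ _ := hlog
      _ ≤ ε' * L + ((i * L + 4 * (ε' * x * L)) + ε' * L + ε' * x * L + ε' * x * L) := by
          gcongr
      _ = i * L + (2 * (ε' * L) + 6 * (ε' * x * L)) := by ring
      _ ≤ i * L + (6 * (ε' * L) + 6 * (ε' * x * L)) := by linarith
      _ = _ := by ring
  calc Real.log (Rcw w k) ≤ i * L + ε * (1 + x) * L := f2
    _ ≤ (⌈(1 + ε) * x⌉ - 1) * L + ε * (1 + x) * L := by gcongr
    _ = _ := by ring

theorem stair_lower (ε : ℝ) (hε : 0 < ε) (hε1 : ε < 1) : ∃ w0 : ℕ, ∀ w ≥ w0, ∀ k : ℕ, 2 ≤ k →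
    (⌈(1 - ε) * (Real.log k / Real.log (Real.log w))⌉ - 1) * Real.log w ≤
      Real.log (Rcw w k) := by
  obtain ⟨w0, hw0⟩ := exists_nat_ge (max 2 (Real.exp (Real.exp (2 / ε))))
  refine ⟨w0, ?_⟩
  intro w hw k hk
  have hw0w : (w0 : ℝ) ≤ w := by exact_mod_cast hw
  have hwR : (2 : ℝ) ≤ w := ((le_max_left _ _).trans hw0).trans hw0w
  have hw2 : 2 ≤ w := by exact_mod_cast hwR
  have hwpos : (0 : ℝ) < w := by linarith
  set L := Real.log w with hL
  have hLe : Real.exp (2 / ε) ≤ L := by
    rw [hL, Real.le_log_iff_exp_le hwpos]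
    exact ((le_max_right _ _).trans hw0).trans hw0w
  have hL0 : 0 < L := (Real.exp_pos _).trans_le hLe
  have hlogL' : 2 / ε ≤ Real.log L := by
    rw [Real.le_log_iff_exp_le hL0]; exact hLe
  have hlogL : 0 < Real.log L := lt_of_lt_of_le (by positivity) hlogL'
  have hεlog : 2 ≤ ε * Real.log L := by
    rwa [div_le_iff₀' hε] at hlogL'
  set s := Nat.log 2 (w ^ 2) with hs
  have h2 : 2 ≤ s := by
    apply Nat.le_log_of_pow_le (by norm_num)
    nlinarith
  have hs0 : (2 : ℝ) ≤ s := by exact_mod_cast h2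
  -- s ≤ 3 log w
  have hs1 : (s : ℝ) ≤ 3 * L := by
    have h5 : (2 : ℝ) ^ s ≤ (w : ℝ) ^ 2 := by
      have : 2 ^ s ≤ w ^ 2 := Nat.pow_log_le_self _ (by positivity)
      exact_mod_cast this
    have h6 := Real.log_le_log (by positivity) h5
    rw [Real.log_pow, Real.log_pow] at h6
    push_cast at h6
    have := log_two_gt
    nlinarith
  set j := Nat.log s (k - 1) with hj
  have hj2 : s ^ j ≤ k - 1 := Nat.pow_log_le_self _ (by omega)
  have hj3 : k ≤ s ^ (j + 1) := by
    have h : k - 1 < s ^ (j + 1) := Nat.lt_pow_succ_log_self (b := s) (by omega) (k - 1)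
    omega
  have hkR : (2 : ℝ) ≤ k := by exact_mod_cast hk
  have hk0 : (0 : ℝ) < k := by linarith
  obtain ⟨G, hG1, hG2⟩ := exists_power hw2 j
  have hR : w ^ j < Rcw w k := by
    rw [lt_Rcw (by omega)]
    refine ⟨w ^ j, le_rfl, G, hG1, fun S hS => ?_⟩
    have h : S.card ≤ s ^ j := hG2 S hS
    omega
  have hR' : (j : ℝ) * L ≤ Real.log (Rcw w k) := by
    have h3 : ((w : ℝ)) ^ j ≤ Rcw w k := by exact_mod_cast hR.le
    have h4 := Real.log_le_log (by positivity) h3
    rwa [Real.log_pow] at h4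
  have hlogk : Real.log k ≤ ((j : ℝ) + 1) * Real.log s := by
    have h9 : (k : ℝ) ≤ (s : ℝ) ^ (j + 1) := by exact_mod_cast hj3
    have h10 := Real.log_le_log hk0 h9
    rw [Real.log_pow] at h10
    push_cast at h10
    exact h10
  have hls : Real.log s ≤ 2 + Real.log L := by
    have h11 := Real.log_le_log (by linarith) hs1
    rw [Real.log_mul (by norm_num) hL0.ne'] at h11
    have h12 : Real.log 3 ≤ Real.log 4 := Real.log_le_log (by norm_num) (by norm_num)
    have := log_four_le
    linarith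
  have hx : (1 - ε) * (Real.log k / Real.log L) ≤ j + 1 := by
    rw [← mul_div_assoc, div_le_iff₀ hlogL]
    have hj0 : (0 : ℝ) ≤ (j : ℝ) + 1 := by positivity
    have h13 : (1 - ε) * Real.log s ≤ Real.log L := by
      have : (1 - ε) * Real.log s ≤ (1 - ε) * (2 + Real.log L) := by
        have : 0 ≤ 1 - ε := by linarith
        gcongr
      nlinarith
    calc (1 - ε) * Real.log k ≤ (1 - ε) * (((j : ℝ) + 1) * Real.log s) := by
          have : 0 ≤ 1 - ε := by linarith
          gcongr
      _ = ((j : ℝ) + 1) * ((1 - ε) * Real.log s) := by ring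
      _ ≤ ((j : ℝ) + 1) * Real.log L := by gcongr
  have hceil : (⌈(1 - ε) * (Real.log k / Real.log L)⌉ : ℝ) - 1 ≤ j := by
    have h14 : ⌈(1 - ε) * (Real.log k / Real.log L)⌉ ≤ (j : ℤ) + 1 := by
      rw [Int.ceil_le]
      push_cast
      exact hx
    have h15 : (⌈(1 - ε) * (Real.log k / Real.log L)⌉ : ℝ) ≤ (j : ℝ) + 1 := by
      exact_mod_cast h14
    linarith
  refine le_trans ?_ hR'
  gcongr

end Q116.CW
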