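import Pool.Agent.Q116.CW.Defs

/-! # Clique-width: balanced cuts with few types -/

set_option autoImplicit false

namespace Q116.CW

variable {V : Type} [DecidableEq V]

lemma joinGraph_adj {w : ℕ} {S : Finset V} {l : V → Fin w} {i j : Fin w} {u v : V} :
    (joinGraph S l i j).Adj u v ↔ u ≠ v ∧ u ∈ S ∧ v ∈ S ∧
      ((l u = i ∧ l v = j) ∨ (l v = i ∧ l u = j)) := by
  unfold joinGraph
  rw [SimpleGraph.fromRel_adj]
  tauto

lemma Built.inside {w : ℕ} {T : Finset V} {H : SimpleGraph V} {l : V → Fin w}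
    (h : Built w T H l) : ∀ u v, H.Adj u v → u ∈ T ∧ v ∈ T := by
  induction h with
  | vertex v l => intro u v h; exact absurd h (by simp)
  | union hST hS hT ih1 ih2 =>
    intro u v h
    rcases h with h | h
    · have := ih1 u v h
      simp [this.1, this.2]
    · have := ih2 u v h
      simp [this.1, this.2]
  | relabel r l' hl hS ih => exact ih
  | join i j hij hS ih =>
    intro u v h
    rcases h with h | h
    · exact ih u v h
    · rw [joinGraph_adj] at h
      exact ⟨h.2.1, h.2.2.1⟩

/-- Inside every expression there is a subexpression with between `m` and `2 m - 1` of the vertices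
of `U`; its vertices with equal labels have the same neighbours outside. -/
theorem Built.cut {w : ℕ} {T : Finset V} {H : SimpleGraph V} {l : V → Fin w}
    (h : Built w T H l) (U : Finset V) (m : ℕ) (hm : 1 ≤ m) (hmT : m ≤ (T ∩ U).card) :
    ∃ S ⊆ T, m ≤ (S ∩ U).card ∧ (S ∩ U).card < 2 * m ∧ ∃ c : V → Fin w, ∀ u ∈ S, ∀ v ∈ S,
      c u = c v → l u = l v ∧ ∀ x ∈ T, x ∉ S → (H.Adj u x ↔ H.Adj v x) := by
  induction h with
  | vertex v l =>
    refine ⟨{v}, subset_rfl, hmT, ?_, l, ?_⟩
    · have : (({v} : Finset V) ∩ U).card ≤ 1 :=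
        (Finset.card_le_card Finset.inter_subset_left).trans (by simp)
      omega
    · intro u hu v' hv' huv
      exact ⟨huv, fun x hx hx' => absurd hx hx'⟩
  | @union S T H K l hST hS hT ih1 ih2 =>
    by_cases h1 : m ≤ (S ∩ U).card
    · obtain ⟨S', hS', h2, h3, c, hc⟩ := ih1 h1
      refine ⟨S', hS'.trans Finset.subset_union_left, h2, h3, c, ?_⟩
      intro u hu v hv huv
      obtain ⟨h4, h5⟩ := hc u hu v hv huv
      refine ⟨h4, fun x hx hx' => ?_⟩
      have huS := hS' hu
      have hvS := hS' hv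
      have huT : u ∉ T := Finset.disjoint_left.1 hST huS
      have hvT : v ∉ T := Finset.disjoint_left.1 hST hvS
      have k1 : ¬ K.Adj u x := fun hh => huT (hT.inside _ _ hh).1
      have k2 : ¬ K.Adj v x := fun hh => hvT (hT.inside _ _ hh).1
      by_cases hxS : x ∈ S
      · have := h5 x hxS hx'
        simp only [SimpleGraph.sup_adj]
        tauto
      · have k3 : ¬ H.Adj u x := fun hh => hxS (hS.inside _ _ hh).2
        have k4 : ¬ H.Adj v x := fun hh => hxS (hS.inside _ _ hh).2
        simp only [SimpleGraph.sup_adj]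
        tauto
    · by_cases h2 : m ≤ (T ∩ U).card
      · obtain ⟨S', hS', h2, h3, c, hc⟩ := ih2 h2
        refine ⟨S', hS'.trans Finset.subset_union_right, h2, h3, c, ?_⟩
        intro u hu v hv huv
        obtain ⟨h4, h5⟩ := hc u hu v hv huv
        refine ⟨h4, fun x hx hx' => ?_⟩
        have huT := hS' hu
        have hvT := hS' hv
        have huS : u ∉ S := Finset.disjoint_right.1 hST huT
        have hvS : v ∉ S := Finset.disjoint_right.1 hST hvT
        have k1 : ¬ H.Adj u x := fun hh => huS (hS.inside _ _ hh).1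
        have k2 : ¬ H.Adj v x := fun hh => hvS (hS.inside _ _ hh).1
        by_cases hxT : x ∈ T
        · have := h5 x hxT hx'
          simp only [SimpleGraph.sup_adj]
          tauto
        · have k3 : ¬ K.Adj u x := fun hh => hxT (hT.inside _ _ hh).2
          have k4 : ¬ K.Adj v x := fun hh => hxT (hT.inside _ _ hh).2
          simp only [SimpleGraph.sup_adj]
          tauto
      · refine ⟨S ∪ T, subset_rfl, hmT, ?_, l, ?_⟩
        · rw [Finset.union_inter_distrib_right]
          have := Finset.card_union_le (S ∩ U) (T ∩ U)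
          omega
        · intro u hu v hv huv
          exact ⟨huv, fun x hx hx' => absurd hx hx'⟩
  | @relabel S H l r l' hl hS ih =>
    obtain ⟨S', hS', h2, h3, c, hc⟩ := ih hmT
    refine ⟨S', hS', h2, h3, c, ?_⟩
    intro u hu v hv huv
    obtain ⟨h4, h5⟩ := hc u hu v hv huv
    refine ⟨?_, h5⟩
    rw [hl u (hS' hu), hl v (hS' hv), h4]
  | @join S H l i j hij hS ih =>
    obtain ⟨S', hS', h2, h3, c, hc⟩ := ih hmT
    refine ⟨S', hS', h2, h3, c, ?_⟩
    intro u hu v hv huv
    obtain ⟨h4, h5⟩ := hc u hu v hv huv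
    refine ⟨h4, fun x hx hx' => ?_⟩
    have h6 := h5 x hx hx'
    have hux : u ≠ x := fun e => hx' (e ▸ hu)
    have hvx : v ≠ x := fun e => hx' (e ▸ hv)
    have huS := hS' hu
    have hvS := hS' hv
    simp only [SimpleGraph.sup_adj, joinGraph_adj, h6, h4]
    tauto

/-- Homogeneous pairs in every set of vertices. -/
theorem hom_pair {w : ℕ} {T : Finset V} {H : SimpleGraph V} {l : V → Fin w}
    (h : Built w T H l) (U : Finset V) (hU : U ⊆ T) (h2 : 2 ≤ U.card) :
    ∃ A ⊆ U, ∃ B ⊆ U, Disjoint A B ∧ U.card ≤ 3 * w * A.card ∧ U.card ≤ 12 * B.card ∧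
      ((∀ a ∈ A, ∀ b ∈ B, H.Adj a b) ∨ (∀ a ∈ A, ∀ b ∈ B, ¬ H.Adj a b)) := by
  classical
  have hTU : T ∩ U = U := Finset.inter_eq_right.2 hU
  obtain ⟨S, hST, h3, h4, c, hc⟩ := h.cut U ((U.card + 2) / 3) (by omega) (by rw [hTU]; omega)
  -- the largest class
  have hne : (S ∩ U).Nonempty := by
    rw [← Finset.card_pos]; omega
  obtain ⟨u0, hu0⟩ := hne
  have hw : 0 < w := by
    have := (c u0).2
    omega
  obtain ⟨i, -, hi⟩ : ∃ i ∈ (Finset.univ : Finset (Fin w)),
      (S ∩ U).card ≤ w * ((S ∩ U).filter (fun u => c u = i)).card := by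
    by_contra hcon
    push Not at hcon
    have h5 : (S ∩ U).card = ∑ i : Fin w, ((S ∩ U).filter (fun u => c u = i)).card :=
      Finset.card_eq_sum_card_fiberwise (fun u _ => Finset.mem_univ _)
    have h6 : w * (S ∩ U).card = ∑ i : Fin w, w * ((S ∩ U).filter (fun u => c u = i)).card := by
      rw [← Finset.mul_sum, ← h5]
    have h7 : ∑ i : Fin w, w * ((S ∩ U).filter (fun u => c u = i)).card <
        ∑ _i : Fin w, (S ∩ U).card := by
      apply Finset.sum_lt_sum_of_nonempty ⟨⟨0, hw⟩, Finset.mem_univ _⟩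
      intro i hi
      exact hcon i hi
    simp at h7
    rw [← h6] at h7
    omega
  set A := (S ∩ U).filter (fun u => c u = i) with hA
  have hAne : A.Nonempty := by
    rw [← Finset.card_pos]
    rcases Nat.eq_zero_or_pos A.card with h0 | h0
    · rw [h0, mul_zero] at hi
      omega
    · exact h0
  obtain ⟨a0, ha0⟩ := hAne
  have memA : ∀ a ∈ A, a ∈ S ∧ a ∈ U ∧ c a = i := by
    intro a ha
    rw [hA, Finset.mem_filter, Finset.mem_inter] at ha
    tauto
  have hcard : (U \ S).card + (S ∩ U).card = U.card := by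
    rw [Finset.inter_comm]
    exact Finset.card_sdiff_add_card_inter U S
  have hB0 : U.card ≤ 6 * (U \ S).card := by omega
  have hsplit : ((U \ S).filter (fun x => H.Adj a0 x)).card +
      ((U \ S).filter (fun x => ¬ H.Adj a0 x)).card = (U \ S).card :=
    Finset.card_filter_add_card_filter_not _
  have hAcard : U.card ≤ 3 * w * A.card := by
    have : U.card ≤ 3 * (S ∩ U).card := by omega
    calc U.card ≤ 3 * (S ∩ U).card := this
      _ ≤ 3 * (w * A.card) := by omega
      _ = 3 * w * A.card := by ring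
  have hdisj : ∀ B ⊆ U \ S, Disjoint A B := by
    intro B hB
    rw [Finset.disjoint_left]
    intro a ha hb
    exact (Finset.mem_sdiff.1 (hB hb)).2 (memA a ha).1
  have hsame : ∀ a ∈ A, ∀ x ∈ U \ S, (H.Adj a x ↔ H.Adj a0 x) := by
    intro a ha x hx
    rw [Finset.mem_sdiff] at hx
    exact (hc a (memA a ha).1 a0 (memA a0 ha0).1
      ((memA a ha).2.2.trans (memA a0 ha0).2.2.symm)).2 x (hU hx.1) hx.2
  have hAU : A ⊆ U := fun a ha => (memA a ha).2.1
  rcases le_total ((U \ S).filter (fun x => ¬ H.Adj a0 x)).card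
    ((U \ S).filter (fun x => H.Adj a0 x)).card with h8 | h8
  · refine ⟨A, hAU, (U \ S).filter (fun x => H.Adj a0 x),
      (Finset.filter_subset _ _).trans Finset.sdiff_subset, hdisj _ (Finset.filter_subset _ _),
      hAcard, by omega, Or.inl ?_⟩
    intro a ha b hb
    rw [Finset.mem_filter] at hb
    exact (hsame a ha b hb.1).2 hb.2
  · refine ⟨A, hAU, (U \ S).filter (fun x => ¬ H.Adj a0 x),
      (Finset.filter_subset _ _).trans Finset.sdiff_subset, hdisj _ (Finset.filter_subset _ _),
      hAcard, by omega, Or.inr ?_⟩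
    intro a ha b hb
    rw [Finset.mem_filter] at hb
    exact fun hh => hb.2 ((hsame a ha b hb.1).1 hh)

end Q116.CW
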