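import Mathlib

/-! # Clique-width: definitions (MP_28724c_co) -/

set_option autoImplicit false

namespace Q116.CW

/-- The edges between the vertices of `S` with label `i` and the vertices of `S` with label `j`. -/
def joinGraph {V : Type} {w : ℕ} (S : Finset V) (l : V → Fin w) (i j : Fin w) : SimpleGraph V :=
  SimpleGraph.fromRel (fun u v => u ∈ S ∧ v ∈ S ∧ l u = i ∧ l v = j)

/-- `Built w S H l`: the labelled graph with vertex set `S`, edges those of `H` and labels `l v ∈ Fin w`
for `v ∈ S` (the values of `l` outside `S` are irrelevant) is constructed by the operations of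
clique-width with `w` labels: single labelled vertices, disjoint unions, changes of labels
(by a map `r` of the set of labels), and joins (all edges between label `i` and label `j ≠ i`). -/
inductive Built {V : Type} [DecidableEq V] (w : ℕ) :
    Finset V → SimpleGraph V → (V → Fin w) → Prop
  | vertex (v : V) (l : V → Fin w) : Built w {v} ⊥ l
  | union {S T : Finset V} {H K : SimpleGraph V} {l : V → Fin w} (hST : Disjoint S T)
      (hS : Built w S H l) (hT : Built w T K l) : Built w (S ∪ T) (H ⊔ K) l
  | relabel {S : Finset V} {H : SimpleGraph V} {l : V → Fin w} (r : Fin w → Fin w)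
      (l' : V → Fin w) (hl : ∀ v ∈ S, l' v = r (l v)) (hS : Built w S H l) : Built w S H l'
  | join {S : Finset V} {H : SimpleGraph V} {l : V → Fin w} (i j : Fin w) (hij : i ≠ j)
      (hS : Built w S H l) : Built w S (H ⊔ joinGraph S l i j) l

/-- The (nonempty) graph `G` has clique-width at most `w`. -/
def CliqueWidthLe {V : Type} [Fintype V] [DecidableEq V] (w : ℕ) (G : SimpleGraph V) : Prop :=
  ∃ l : V → Fin w, Built w Finset.univ G l

/-- All pairs of different elements of `S` have the same colour (edges of `G` are red, the other
pairs are blue). -/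
def Mono {V : Type} (G : SimpleGraph V) (S : Finset V) : Prop :=
  (∀ x ∈ S, ∀ y ∈ S, x ≠ y → G.Adj x y) ∨ (∀ x ∈ S, ∀ y ∈ S, x ≠ y → ¬ G.Adj x y)

end Q116.CW
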