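import Pool.Agent.Q116.CW.Num

/-! # Clique-width: the linear regime -/

set_option autoImplicit false

namespace Q116.CW

open Filter Asymptotics

/-- `C(n, a) ≤ x^(-a) (1 + x)^n` -/
lemma choose_le_exp (n a p : ℕ) (hp : 1 ≤ p) (han : a ≤ n) :
    ((n.choose a : ℕ) : ℝ) ≤ Real.exp (a * Real.log p + n / p) := by
  have hp0 : (0 : ℝ) < p := by exact_mod_cast hp
  have h1 : ((n.choose a : ℕ) : ℝ) * (1 / (p : ℝ)) ^ a ≤ (1 / (p : ℝ) + 1) ^ n := by
    rw [add_pow]
    have h := Finset.single_le_sum (s := Finset.range (n + 1))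
      (f := fun m => (1 / (p : ℝ)) ^ m * 1 ^ (n - m) * (n.choose m : ℕ))
      (fun i _ => by positivity) (Finset.mem_range.2 (Nat.lt_succ_of_le han))
    simp only [one_pow, mul_one] at h ⊢
    linarith
  have h2 : (1 / (p : ℝ) + 1) ^ n ≤ Real.exp (n / p) := by
    have := Real.add_one_le_exp (1 / (p : ℝ))
    calc (1 / (p : ℝ) + 1) ^ n ≤ (Real.exp (1 / p)) ^ n := by gcongr
      _ = Real.exp (n / p) := by
        rw [← Real.exp_nat_mul]; ring_nf
  have h3 : (1 / (p : ℝ)) ^ a * Real.exp (a * Real.log p) = 1 := by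
    rw [Real.exp_nat_mul, Real.exp_log hp0, ← mul_pow]
    rw [one_div, inv_mul_cancel₀ hp0.ne', one_pow]
  calc ((n.choose a : ℕ) : ℝ) = ((n.choose a : ℕ) : ℝ) * ((1 / (p : ℝ)) ^ a *
        Real.exp (a * Real.log p)) := by rw [h3, mul_one]
    _ = (((n.choose a : ℕ) : ℝ) * (1 / (p : ℝ)) ^ a) * Real.exp (a * Real.log p) := by ring
    _ ≤ Real.exp (n / p) * Real.exp (a * Real.log p) := by
        gcongr
        exact h1.trans h2
    _ = Real.exp (a * Real.log p + n / p) := by rw [← Real.exp_add, add_comm]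

/-- the bound for fixed `p` -/
lemma Rcw_le_fixed {w k p : ℕ} (hw : 1 ≤ w) (hk : 2 ≤ k) (hp : 1 ≤ p) :
    (Rcw w k : ℝ) ≤ 24 * ((p + 2) * k) ^ (p + 2) * Real.exp (Real.log p + 1 / p) *
      Real.exp ((Real.log p / p + 1 / p + 1 / (p : ℝ) ^ 2) * k) * w := by
  obtain ⟨N, hN1, hRN, -, G, ⟨l, hl⟩, hG⟩ := exists_graph hw hk
  set a := (k - 1) / p + 1 with ha
  have hpa : k - 1 ≤ p * a := by
    have h := Nat.div_add_mod (k - 1) p
    have h' := Nat.mod_lt (k - 1) (show 0 < p by omega)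
    rw [ha]
    have : p * ((k - 1) / p + 1) = p * ((k - 1) / p) + p := by ring
    omega
  have hpa' : p * a ≤ k - 1 + p := by
    have h := Nat.mul_div_le (k - 1) p
    rw [ha]
    have : p * ((k - 1) / p + 1) = p * ((k - 1) / p) + p := by ring
    omega
  have hbd := hG.bd (by omega : 1 ≤ k)
  have hbd' : Bd G Finset.univ (p * a) ((k - 1) * 1) := hbd.mono subset_rfl hpa (by omega)
  have h1 := recursion hl hw p (k - 1) a 1 ((a + (k - 1)).choose a + p * a) hp
    (by
      have : 0 < (a + (k - 1)).choose a := Nat.choose_pos (by omega)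
      omega)
    (by
      intro U _ hU
      have := Bd.card_le_choose _ a ((k - 1) * 1) rfl U hU
      rw [mul_one] at this
      omega)
    (by
      intro U _ hU
      have := hU.card_le_left
      omega) Finset.univ subset_rfl hbd'
  rw [Finset.card_univ, Fintype.card_fin] at h1
  have h2 : (Rcw w k : ℝ) ≤ 2 * (12 * (p + (k - 1 : ℕ)) * w * ((p + (k - 1)).choose p : ℕ) *
      (((a + (k - 1)).choose a : ℕ) + (p * a : ℕ))) := by
    have : Rcw w k ≤ 2 * (12 * (p + (k - 1)) * w * (p + (k - 1)).choose p *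
        ((a + (k - 1)).choose a + p * a)) := hRN.trans (by omega)
    exact_mod_cast this
  have hp0 : (0 : ℝ) < p := by exact_mod_cast hp
  have hp1 : (1 : ℝ) ≤ p := by exact_mod_cast hp
  have hlogp : 0 ≤ Real.log p := Real.log_nonneg hp1
  have hk1 : (2 : ℝ) ≤ k := by exact_mod_cast hk
  set E := Real.exp (Real.log p + 1 / p) *
      Real.exp ((Real.log p / p + 1 / p + 1 / (p : ℝ) ^ 2) * k) with hE
  have hkk : ((k - 1 : ℕ) : ℝ) ≤ k := by exact_mod_cast Nat.sub_le k 1
  have haR : (a : ℝ) ≤ k / p + 1 := by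
    have h5 : (((k - 1) / p : ℕ) : ℝ) ≤ ((k - 1 : ℕ) : ℝ) / p := Nat.cast_div_le
    have h6 : ((k - 1 : ℕ) : ℝ) / p ≤ k / p := by gcongr
    rw [ha]
    push_cast
    linarith
  have h3 : (((a + (k - 1)).choose a : ℕ) : ℝ) ≤ E := by
    refine (choose_le_exp _ a p hp (by omega)).trans ?_
    rw [hE, ← Real.exp_add]
    apply Real.exp_le_exp.2
    push_cast
    calc (a : ℝ) * Real.log p + (a + (k - 1 : ℕ)) / p
        ≤ (k / p + 1) * Real.log p + ((k / p + 1) + k) / p := by gcongr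
      _ = _ := by field_simp; ring
  have hE1 : 1 ≤ E := by
    rw [hE]
    have e1 : 1 ≤ Real.exp (Real.log p + 1 / p) := Real.one_le_exp (by positivity)
    have e2 : 1 ≤ Real.exp ((Real.log p / p + 1 / p + 1 / (p : ℝ) ^ 2) * k) :=
      Real.one_le_exp (by positivity)
    nlinarith
  have h4 : ((p * a : ℕ) : ℝ) ≤ k + p := by
    have : p * a ≤ k + p := by omega
    exact_mod_cast this
  have h5 : (((p + (k - 1)).choose p : ℕ) : ℝ) ≤ (p + k) ^ p := by
    have h := Nat.choose_le_pow (p + (k - 1)) p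
    have h' : (p + (k - 1)).choose p ≤ (p + k) ^ p := h.trans (Nat.pow_le_pow_left (by omega) _)
    exact_mod_cast h'
  have h6 : (p : ℝ) + k + 1 ≤ (p + 2) * k := by nlinarith
  calc (Rcw w k : ℝ) ≤ _ := h2
    _ ≤ 2 * (12 * (p + k) * w * (p + k) ^ p * (E + (k + p))) := by gcongr
    _ ≤ 2 * (12 * (p + k + 1) * w * (p + k + 1) ^ p * (E * (p + k + 1))) := by
        have e1 : E + (k + p) ≤ E * (p + k + 1) := by nlinarith
        have e2 : (p : ℝ) + k ≤ p + k + 1 := by linarith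
        gcongr
    _ = 24 * (p + k + 1) ^ (p + 2) * E * w := by ring
    _ ≤ 24 * ((p + 2) * k) ^ (p + 2) * E * w := by gcongr
    _ = _ := by rw [hE]; ring

theorem linear (ε : ℝ) (hε : 0 < ε) : ∃ K : ℕ, 2 ≤ K ∧ ∀ k ≥ K, ∀ w ≥ 1,
    (Rcw w k : ℝ) ≤ Real.exp (ε * k) * w := by
  -- choose `p`
  obtain ⟨p, hp⟩ := exists_nat_ge (max 1 ((8 / ε) ^ 2))
  have hp1 : (1 : ℝ) ≤ p := (le_max_left _ _).trans hp
  have hp1' : 1 ≤ p := by exact_mod_cast hp1
  have hp2 : (8 / ε) ^ 2 ≤ (p : ℝ) := (le_max_right _ _).trans hp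
  have hp0 : (0 : ℝ) < p := by linarith
  set c := Real.log p / p + 1 / p + 1 / (p : ℝ) ^ 2 with hc
  have hcε : c ≤ ε / 2 := by
    have hs0 : 0 < Real.sqrt p := Real.sqrt_pos.2 hp0
    have hs1 : 1 ≤ Real.sqrt p := Real.one_le_sqrt.2 hp1
    have hss : Real.sqrt p * Real.sqrt p = p := Real.mul_self_sqrt hp0.le
    have h1 : Real.log p ≤ 2 * Real.sqrt p := by
      have h2 : Real.log p = 2 * Real.log (Real.sqrt p) := by
        rw [Real.log_sqrt hp0.le]; ring
      have h3 := Real.log_le_sub_one_of_pos hs0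
      rw [h2]
      linarith
    have h4 : c * p ≤ 4 * Real.sqrt p := by
      have h5 : c * p = Real.log p + 1 + 1 / p := by
        rw [hc]; field_simp
      have h6 : 1 / (p : ℝ) ≤ 1 := by
        rw [div_le_one hp0]; exact hp1
      rw [h5]
      linarith
    have h7 : 8 / ε ≤ Real.sqrt p := by
      apply Real.le_sqrt_of_sq_le
      exact hp2
    have h8 : 8 ≤ ε * Real.sqrt p := by
      rwa [div_le_iff₀' hε] at h7
    have h9 : c * p ≤ (ε / 2) * p := by
      calc c * p ≤ 4 * Real.sqrt p := h4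
        _ ≤ (ε * Real.sqrt p / 2) * Real.sqrt p := by nlinarith
        _ = (ε / 2) * (Real.sqrt p * Real.sqrt p) := by ring
        _ = (ε / 2) * p := by rw [hss]
    exact le_of_mul_le_mul_right h9 hp0
  set D : ℝ := 24 * (p + 2) ^ (p + 2) * Real.exp (Real.log p + 1 / p) with hD
  have hD0 : 0 < D := by positivity
  have h1 : ∀ᶠ x : ℝ in atTop, x ^ (p + 2) ≤ (1 / D) * Real.exp (ε / 2 * x) := by
    have h := (isLittleO_pow_exp_pos_mul_atTop (k := p + 2) (b := ε / 2) (by positivity)).bound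
      (show (0 : ℝ) < 1 / D by positivity)
    filter_upwards [h, eventually_ge_atTop 0] with x hx hx0
    rw [Real.norm_of_nonneg (by positivity), Real.norm_of_nonneg (by positivity)] at hx
    exact hx
  obtain ⟨X, hX⟩ := eventually_atTop.1 h1
  obtain ⟨K, hK⟩ := exists_nat_ge (max X 2)
  refine ⟨K, by exact_mod_cast (le_max_right X 2).trans hK, ?_⟩
  intro k hk w hw
  have hkR : (K : ℝ) ≤ k := by exact_mod_cast hk
  have hkX : X ≤ (k : ℝ) := ((le_max_left _ _).trans hK).trans hkR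
  have hk2 : (2 : ℝ) ≤ k := ((le_max_right _ _).trans hK).trans hkR
  have h2 := Rcw_le_fixed (w := w) (k := k) (p := p) hw (by exact_mod_cast hk2) hp1'
  have h3 := hX k hkX
  have hw0 : (0 : ℝ) ≤ w := Nat.cast_nonneg _
  calc (Rcw w k : ℝ) ≤ 24 * ((p + 2) * k) ^ (p + 2) * Real.exp (Real.log p + 1 / p) *
      Real.exp (c * k) * w := h2
    _ = D * ((k : ℝ) ^ (p + 2)) * Real.exp (c * k) * w := by
        rw [hD, mul_pow]; ring
    _ ≤ D * ((1 / D) * Real.exp (ε / 2 * k)) * Real.exp (ε / 2 * k) * w := by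
        gcongr
    _ = (Real.exp (ε / 2 * k) * Real.exp (ε / 2 * k)) * w := by
        field_simp
    _ = Real.exp (ε * k) * w := by
        rw [← Real.exp_add]; ring_nf

end Q116.CW
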