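import Pool.Agent.Q116.CW.Asym
import Pool.Agent.Q116.CW.Lin

/-! # Clique-width: the final statements -/

set_option autoImplicit false

namespace Q116.CW

open Filter Topology Pool.Agent.H818R2.Ram

/-- Erdős's lower bound for `ramsey`. -/
lemma pow_lt_ramsey {k : ℕ} (hk : 3 ≤ k) : (2 : ℝ) ^ k < (ramsey k : ℝ) ^ 2 := by
  have h3 := erdos_lower (k := k) hk
  have h4 : R k k ≤ ramsey k := by
    by_contra hcon
    push Not at hcon
    obtain ⟨H, hr, hb⟩ := exists_coloring hcon
    have h5 : Free k H := by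
      intro S hS
      by_contra hcon'
      push Not at hcon'
      rcases hS with hS | hS
      · apply hr
        refine HasRed.le ⟨S, Finset.subset_univ _, ?_⟩ hcon'
        rw [SimpleGraph.isNClique_iff]
        refine ⟨?_, rfl⟩
        intro x hx y hy hxy
        exact hS x hx y hy hxy
      · apply hb
        refine HasBlue.le ⟨S, Finset.subset_univ _, ?_⟩ hcon'
        rw [SimpleGraph.isNClique_iff]
        refine ⟨?_, rfl⟩
        intro x hx y hy hxy
        rw [SimpleGraph.compl_adj]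
        exact ⟨hxy, hS x hx y hy hxy⟩
    exact absurd ((lt_ramsey (by omega)).2 ⟨ramsey k, le_rfl, H, h5⟩) (lt_irrefl _)
  have h5 : 2 ^ k < (ramsey k) ^ 2 := by
    have : (R k k) ^ 2 ≤ (ramsey k) ^ 2 := Nat.pow_le_pow_left h4 2
    omega
  exact_mod_cast h5

/-- The exponential growth rate if the clique-width is at most `exp (c k)`. -/
theorem rate (c : ℝ) (hc : 0 ≤ c) (hc2 : c ≤ Real.log 2 / 2) :
    Tendsto (fun k : ℕ => Real.log (Rcw ⌊Real.exp (c * k)⌋₊ k) / k) atTop (𝓝 c) := by
  rw [Metric.tendsto_atTop]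
  intro ε hε
  obtain ⟨K, hK2, hK⟩ := linear (ε / 2) (by positivity)
  refine ⟨max K 3, fun k hk => ?_⟩
  have hkK : K ≤ k := (le_max_left _ _).trans hk
  have hk3 : 3 ≤ k := (le_max_right _ _).trans hk
  have hk0 : (0 : ℝ) < k := by
    have : 0 < k := by omega
    exact_mod_cast this
  set w := ⌊Real.exp (c * k)⌋₊ with hw
  have hw1 : 1 ≤ w := by
    rw [hw, Nat.one_le_floor_iff]
    exact Real.one_le_exp (by positivity)
  have hwle : (w : ℝ) ≤ Real.exp (c * k) := Nat.floor_le (Real.exp_pos _).le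
  have hwlt : Real.exp (c * k) < w + 1 := Nat.lt_floor_add_one _
  have hup : (Rcw w k : ℝ) ≤ Real.exp ((c + ε / 2) * k) := by
    calc (Rcw w k : ℝ) ≤ Real.exp (ε / 2 * k) * w := hK k hkK w hw1
      _ ≤ Real.exp (ε / 2 * k) * Real.exp (c * k) := by gcongr
      _ = _ := by rw [← Real.exp_add]; ring_nf
  have hlo : Real.exp (c * k) ≤ Rcw w k := by
    have h1 : ((min (w + 1) (ramsey k) : ℕ) : ℝ) ≤ Rcw w k := by
      exact_mod_cast min_le_Rcw hw1 (by omega : 2 ≤ k)
    refine le_trans ?_ h1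
    push_cast
    rw [le_min_iff]
    refine ⟨hwlt.le, ?_⟩
    have h2 := pow_lt_ramsey hk3
    have h3 : (Real.exp (c * k)) ^ 2 ≤ (2 : ℝ) ^ k := by
      have h4 : (2 : ℝ) ^ k = Real.exp (Real.log 2 * k) := by
        rw [mul_comm, Real.exp_nat_mul, Real.exp_log (by norm_num)]
      rw [h4, ← Real.exp_nat_mul]
      apply Real.exp_le_exp.2
      push_cast
      have : c * k ≤ Real.log 2 / 2 * k := by gcongr
      linarith
    exact (pow_le_pow_iff_left₀ (Real.exp_pos _).le (Nat.cast_nonneg _) (by norm_num)).1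
      (h3.trans h2.le)
  have hRpos : (0 : ℝ) < Rcw w k := (Real.exp_pos _).trans_le hlo
  rw [Real.dist_eq, abs_lt]
  constructor
  · have h5 : c * k ≤ Real.log (Rcw w k) := by
      rwa [Real.le_log_iff_exp_le hRpos]
    have h6 : c ≤ Real.log (Rcw w k) / k := by
      rwa [le_div_iff₀ hk0]
    linarith
  · have h5 : Real.log (Rcw w k) ≤ (c + ε / 2) * k := by
      rwa [Real.log_le_iff_le_exp hRpos]
    have h6 : Real.log (Rcw w k) / k ≤ c + ε / 2 := by
      rwa [div_le_iff₀ hk0]
    linarith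

/-- uniform bounds -/
theorem uniform {w k : ℕ} (hw : 2 ≤ w) (hk : Nat.log 2 (w ^ 2) < k) :
    1 / 12 * Real.log k * (Real.log (3 * w) / Real.log (Real.log (3 * w))) ≤
      Real.log (Rcw w k) ∧
    Real.log (Rcw w k) ≤
      5 * Real.log k * (Real.log (3 * w) / Real.log (Real.log (3 * w))) := by
  have h2 : 2 ≤ Nat.log 2 (w ^ 2) := by
    apply Nat.le_log_of_pow_le (by norm_num)
    nlinarith
  have hk2 : 2 ≤ k := by omega
  have hR2 := two_le_Rcw (w := w) (k := k) (by omega) hk2
  have hRpos : (0 : ℝ) < Rcw w k := by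
    exact_mod_cast (by omega : 0 < Rcw w k)
  constructor
  · obtain ⟨N, G, hG1, hG2, hN⟩ := lower hw hk
    have h3 : N < Rcw w k := (lt_Rcw (by omega)).2 ⟨N, le_rfl, G, hG1, hG2⟩
    refine hN.trans ?_
    rcases Nat.eq_zero_or_pos N with rfl | hN0
    · simp only [Nat.cast_zero, Real.log_zero]
      apply Real.log_nonneg
      exact_mod_cast (by omega : 1 ≤ Rcw w k)
    · apply Real.log_le_log (by exact_mod_cast hN0)
      exact_mod_cast h3.le
  · obtain ⟨N, hN1, hRN, -, G, hG, hfree⟩ := exists_graph (w := w) (k := k) (by omega) hk2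
    have h4 := upper (by omega : 1 ≤ w) hk2 hN1 G hG hfree
    have hN0 : (0 : ℝ) < N := by exact_mod_cast hN1
    have h5 : Real.log (Rcw w k) ≤ Real.log 2 + Real.log N := by
      rw [← Real.log_mul (by norm_num) hN0.ne']
      apply Real.log_le_log hRpos
      exact_mod_cast hRN
    set L := Real.log (3 * w) with hL
    have hL1 : 1.09 ≤ L := one_le_log_three_mul (by omega : 1 ≤ w)
    have hL0 : 0 < L := by linarith
    have hlogL : 0 < Real.log L := Real.log_pos (by linarith)
    have h6 : Real.log 2 ≤ Real.log k := Real.log_le_log (by norm_num) (by exact_mod_cast hk2)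
    have h7 : 1 ≤ L / Real.log L := by
      rw [le_div_iff₀ hlogL]
      have := Real.log_le_sub_one_of_pos hL0
      linarith
    have h8 : 0 ≤ Real.log k := Real.log_nonneg (by exact_mod_cast (by omega : 1 ≤ k))
    have h9 : Real.log k * 1 ≤ Real.log k * (L / Real.log L) := by gcongr
    nlinarith

end Q116.CW
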