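import Pool.Agent.Q116.CW.Cut

/-! # Clique-width of lexicographic products -/

set_option autoImplicit false

namespace Q116.CW

/-- Transport along an injection. -/
theorem Built.map {V V' : Type} [DecidableEq V] [DecidableEq V'] {w : ℕ} (f : V ↪ V')
    {S : Finset V} {H : SimpleGraph V} {l : V → Fin w} (h : Built w S H l) :
    ∀ l' : V' → Fin w, (∀ v, l' (f v) = l v) → Built w (S.map f) (H.map f) l' := by
  induction h with
  | vertex v l =>
    intro l' hl'
    have e : (⊥ : SimpleGraph V).map f = ⊥ := by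
      ext a b
      simp [SimpleGraph.map_adj]
    rw [Finset.map_singleton, e]
    exact Built.vertex _ _
  | @union S T H K l hST hS hT ih1 ih2 =>
    intro l' hl'
    have e : (H ⊔ K).map f = H.map f ⊔ K.map f := by
      ext a b
      simp only [SimpleGraph.map_adj, SimpleGraph.sup_adj]
      constructor
      · rintro ⟨u, v, h | h, rfl, rfl⟩
        · exact Or.inl ⟨u, v, h, rfl, rfl⟩
        · exact Or.inr ⟨u, v, h, rfl, rfl⟩
      · rintro (⟨u, v, h, rfl, rfl⟩ | ⟨u, v, h, rfl, rfl⟩)
        · exact ⟨u, v, Or.inl h, rfl, rfl⟩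
        · exact ⟨u, v, Or.inr h, rfl, rfl⟩
    rw [Finset.map_union, e]
    exact Built.union ((Finset.disjoint_map f).2 hST) (ih1 l' hl') (ih2 l' hl')
  | @relabel S H l r l' hl hS ih =>
    intro l'' hl''
    classical
    let l1 : V' → Fin w := Function.extend f l l''
    have hl1 : ∀ v, l1 (f v) = l v := fun v => f.injective.extend_apply _ _ v
    refine Built.relabel r l'' ?_ (ih l1 hl1)
    intro v' hv'
    obtain ⟨v, hv, rfl⟩ := Finset.mem_map.1 hv'
    rw [hl'', hl1, hl v hv]
  | @join S H l i j hij hS ih =>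
    intro l' hl'
    have e : (H ⊔ joinGraph S l i j).map f = H.map f ⊔ joinGraph (S.map f) l' i j := by
      ext a b
      simp only [SimpleGraph.map_adj, SimpleGraph.sup_adj, joinGraph_adj]
      constructor
      · rintro ⟨u, v, h | ⟨h1, h2, h3, h4⟩, rfl, rfl⟩
        · exact Or.inl ⟨u, v, h, rfl, rfl⟩
        · refine Or.inr ⟨fun e => h1 (f.injective e), Finset.mem_map_of_mem f h2,
            Finset.mem_map_of_mem f h3, ?_⟩
          rw [hl', hl']
          exact h4
      · rintro (⟨u, v, h, rfl, rfl⟩ | ⟨h1, h2, h3, h4⟩)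
        · exact ⟨u, v, Or.inl h, rfl, rfl⟩
        · obtain ⟨u, hu, rfl⟩ := Finset.mem_map.1 h2
          obtain ⟨v, hv, rfl⟩ := Finset.mem_map.1 h3
          rw [hl', hl'] at h4
          exact ⟨u, v, Or.inr ⟨fun e => h1 (by rw [e]), hu, hv, h4⟩, rfl, rfl⟩
    rw [e]
    exact Built.join i j hij (ih l' hl')

theorem CliqueWidthLe.map_equiv {V V' : Type} [Fintype V] [DecidableEq V] [Fintype V']
    [DecidableEq V'] {w : ℕ} (f : V ≃ V') {G : SimpleGraph V} (h : CliqueWidthLe w G) :
    CliqueWidthLe w (G.map f.toEmbedding) := by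
  obtain ⟨l, hl⟩ := h
  refine ⟨l ∘ f.symm, ?_⟩
  have := hl.map f.toEmbedding (l ∘ f.symm) (fun v => by simp)
  rwa [Finset.map_univ_equiv] at this

/-- The lexicographic product. -/
def lex {U V : Type} (H : SimpleGraph U) (G : SimpleGraph V) : SimpleGraph (U × V) where
  Adj a b := H.Adj a.1 b.1 ∨ (a.1 = b.1 ∧ G.Adj a.2 b.2)
  symm := ⟨by
    rintro a b (h | ⟨h1, h2⟩)
    · exact Or.inl h.symm
    · exact Or.inr ⟨h1.symm, h2.symm⟩⟩
  loopless := ⟨by
    rintro a (h | ⟨h1, h2⟩)
    · exact H.loopless.irrefl _ h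
    · exact G.loopless.irrefl _ h2⟩

/-- The copies of `G` over the elements of `A`. -/
def layers {w : ℕ} {V : Type} (A : Finset (Fin w)) (G : SimpleGraph V) :
    SimpleGraph (Fin w × V) where
  Adj a b := a.1 ∈ A ∧ a.1 = b.1 ∧ G.Adj a.2 b.2
  symm := ⟨by
    rintro a b ⟨h1, h2, h3⟩
    exact ⟨h2 ▸ h1, h2.symm, h3.symm⟩⟩
  loopless := ⟨by
    rintro a ⟨h1, h2, h3⟩
    exact G.loopless.irrefl _ h3⟩

/-- The graph `layers univ G` together with the joins of `E`. -/
def joined {w : ℕ} {V : Type} (E : Finset (Fin w × Fin w)) (G : SimpleGraph V) :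
    SimpleGraph (Fin w × V) where
  Adj a b := (a.1 = b.1 ∧ G.Adj a.2 b.2) ∨ (a.1 ≠ b.1 ∧ ((a.1, b.1) ∈ E ∨ (b.1, a.1) ∈ E))
  symm := ⟨by
    rintro a b (⟨h1, h2⟩ | ⟨h1, h2⟩)
    · exact Or.inl ⟨h1.symm, h2.symm⟩
    · exact Or.inr ⟨h1.symm, h2.symm⟩⟩
  loopless := ⟨by
    rintro a (⟨h1, h2⟩ | ⟨h1, h2⟩)
    · exact G.loopless.irrefl _ h2
    · exact h1 rfl⟩

variable {V : Type} [Fintype V] [DecidableEq V] {w : ℕ}

lemma built_layer {G : SimpleGraph V} (hG : CliqueWidthLe w G) (a : Fin w) :
    Built w ({a} ×ˢ Finset.univ) (layers {a} G) (Prod.fst : Fin w × V → Fin w) := by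
  obtain ⟨l, hl⟩ := hG
  let f : V ↪ Fin w × V := ⟨fun x => (a, x), fun x y h => by simpa using h⟩
  have h1 := hl.map f (fun p => l p.2) (fun v => rfl)
  have e1 : Finset.univ.map f = ({a} : Finset (Fin w)) ×ˢ (Finset.univ : Finset V) := by
    ext ⟨b, x⟩
    simp only [Finset.mem_map, Finset.mem_univ, true_and, Finset.mem_product,
      Finset.mem_singleton, and_true]
    constructor
    · rintro ⟨y, hy⟩
      exact (congrArg Prod.fst hy).symm
    · rintro rfl
      exact ⟨x, rfl⟩
  have e2 : G.map f = layers {a} G := by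
    ext ⟨b, x⟩ ⟨b', y⟩
    simp only [SimpleGraph.map_adj, layers, Finset.mem_singleton]
    constructor
    · rintro ⟨u, v, h, h1, h2⟩
      obtain ⟨rfl, rfl⟩ := Prod.mk.inj h1
      obtain ⟨rfl, rfl⟩ := Prod.mk.inj h2
      exact ⟨rfl, rfl, h⟩
    · rintro ⟨rfl, rfl, h⟩
      exact ⟨x, y, h, rfl, rfl⟩
  rw [e1, e2] at h1
  refine Built.relabel (fun _ => a) Prod.fst ?_ h1
  rintro ⟨b, x⟩ hp
  rw [Finset.mem_product, Finset.mem_singleton] at hp
  exact hp.1

lemma built_layers {G : SimpleGraph V} (hG : CliqueWidthLe w G) (A : Finset (Fin w))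
    (hA : A.Nonempty) :
    Built w (A ×ˢ Finset.univ) (layers A G) (Prod.fst : Fin w × V → Fin w) := by
  induction hA using Finset.Nonempty.cons_induction with
  | singleton a => exact built_layer hG a
  | cons a A ha hA ih =>
    have h1 := Built.union (w := w) (l := (Prod.fst : Fin w × V → Fin w))
      (S := ({a} : Finset (Fin w)) ×ˢ (Finset.univ : Finset V)) (T := A ×ˢ Finset.univ)
      (by
        rw [Finset.disjoint_left]
        rintro ⟨b, x⟩ hb hb'
        simp only [Finset.mem_product, Finset.mem_singleton, Finset.mem_univ, and_true] at hb hb'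
        exact ha (hb ▸ hb'))
      (built_layer hG a) ih
    have e1 : ({a} : Finset (Fin w)) ×ˢ (Finset.univ : Finset V) ∪ A ×ˢ Finset.univ =
        (Finset.cons a A ha) ×ˢ Finset.univ := by
      ext ⟨b, x⟩
      simp only [Finset.mem_union, Finset.mem_product, Finset.mem_singleton, Finset.mem_univ,
        and_true, Finset.mem_cons]
    have e2 : layers {a} G ⊔ layers A G = layers (Finset.cons a A ha) G := by
      ext ⟨b, x⟩ ⟨b', y⟩
      simp only [SimpleGraph.sup_adj, layers, Finset.mem_singleton, Finset.mem_cons]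
      tauto
    rwa [e1, e2] at h1

lemma built_joined {G : SimpleGraph V} (hG : CliqueWidthLe w G) (hw : 1 ≤ w)
    (E : Finset (Fin w × Fin w)) :
    Built w Finset.univ (joined E G) (Prod.fst : Fin w × V → Fin w) := by
  induction E using Finset.induction_on with
  | empty =>
    haveI : Nonempty (Fin w) := ⟨⟨0, hw⟩⟩
    have h := built_layers hG Finset.univ Finset.univ_nonempty
    rw [Finset.univ_product_univ] at h
    have e : layers (Finset.univ : Finset (Fin w)) G = joined (∅ : Finset (Fin w × Fin w)) G := by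
      ext ⟨b, x⟩ ⟨b', y⟩
      simp only [layers, joined, Finset.mem_univ, true_and, Finset.notMem_empty, or_self,
        and_false, or_false]
    rwa [e] at h
  | @insert ij E hij ih =>
    obtain ⟨i, j⟩ := ij
    by_cases hne : i = j
    · have e : joined (insert (i, j) E) G = joined E G := by
        ext ⟨b, x⟩ ⟨b', y⟩
        simp only [joined, Finset.mem_insert, Prod.mk.injEq]
        constructor
        · rintro (h | ⟨h1, h2⟩)
          · exact Or.inl h
          · refine Or.inr ⟨h1, ?_⟩
            rcases h2 with (⟨rfl, rfl⟩ | h2) | (⟨rfl, rfl⟩ | h2)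
            · exact absurd hne h1
            · exact Or.inl h2
            · exact absurd hne.symm h1
            · exact Or.inr h2
        · rintro (h | ⟨h1, h2 | h2⟩)
          · exact Or.inl h
          · exact Or.inr ⟨h1, Or.inl (Or.inr h2)⟩
          · exact Or.inr ⟨h1, Or.inr (Or.inr h2)⟩
      rw [e]
      exact ih
    · have h := Built.join i j hne ih
      have e : joined E G ⊔ joinGraph Finset.univ (Prod.fst : Fin w × V → Fin w) i j =
          joined (insert (i, j) E) G := by
        ext ⟨b, x⟩ ⟨b', y⟩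
        simp only [SimpleGraph.sup_adj, joinGraph_adj, joined, Finset.mem_insert, Prod.mk.injEq,
          Finset.mem_univ, true_and]
        constructor
        · rintro ((h | ⟨h1, h2 | h2⟩) | ⟨h1, ⟨rfl, rfl⟩ | ⟨rfl, rfl⟩⟩)
          · exact Or.inl h
          · exact Or.inr ⟨h1, Or.inl (Or.inr h2)⟩
          · exact Or.inr ⟨h1, Or.inr (Or.inr h2)⟩
          · exact Or.inr ⟨hne, Or.inl (Or.inl ⟨rfl, rfl⟩)⟩
          · exact Or.inr ⟨Ne.symm hne, Or.inr (Or.inl ⟨rfl, rfl⟩)⟩
        · rintro (h | ⟨h1, (⟨rfl, rfl⟩ | h2) | (⟨rfl, rfl⟩ | h2)⟩)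
          · exact Or.inl (Or.inl h)
          · exact Or.inr ⟨fun e => h1 (congrArg Prod.fst e), Or.inl ⟨rfl, rfl⟩⟩
          · exact Or.inl (Or.inr ⟨h1, Or.inl h2⟩)
          · exact Or.inr ⟨fun e => h1 (congrArg Prod.fst e), Or.inr ⟨rfl, rfl⟩⟩
          · exact Or.inl (Or.inr ⟨h1, Or.inr h2⟩)
      rwa [e] at h

/-- The lexicographic product of a graph on `w` vertices and a graph of clique-width at most `w` has
clique-width at most `w`. -/
theorem cliqueWidth_lex {G : SimpleGraph V} (hG : CliqueWidthLe w G) (hw : 1 ≤ w)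
    (H : SimpleGraph (Fin w)) : CliqueWidthLe w (lex H G) := by
  classical
  refine ⟨Prod.fst, ?_⟩
  have h := built_joined hG hw (Finset.univ.filter (fun p : Fin w × Fin w => H.Adj p.1 p.2))
  have e : joined (Finset.univ.filter (fun p : Fin w × Fin w => H.Adj p.1 p.2)) G = lex H G := by
    ext ⟨b, x⟩ ⟨b', y⟩
    simp only [joined, lex, Finset.mem_filter, Finset.mem_univ, true_and]
    constructor
    · rintro (h | ⟨h1, h2 | h2⟩)
      · exact Or.inr h
      · exact Or.inl h2
      · exact Or.inl h2.symm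
    · rintro (h | h)
      · exact Or.inr ⟨h.ne, Or.inl h⟩
      · exact Or.inl h
  rwa [e] at h

/-- Monochromatic sets in lexicographic products. -/
theorem mono_lex {U : Type} [Fintype U] [DecidableEq U] {H : SimpleGraph U} {G : SimpleGraph V}
    {s t : ℕ} (hH : ∀ S : Finset U, Mono H S → S.card ≤ s)
    (hG : ∀ S : Finset V, Mono G S → S.card ≤ t) (S : Finset (U × V)) (hS : Mono (lex H G) S) :
    S.card ≤ s * t := by
  classical
  have h1 : (S.image Prod.fst).card ≤ s := by
    apply hH
    rcases hS with hS | hS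
    · left
      intro x hx y hy hxy
      obtain ⟨a, ha, rfl⟩ := Finset.mem_image.1 hx
      obtain ⟨b, hb, rfl⟩ := Finset.mem_image.1 hy
      rcases hS a ha b hb (fun e => hxy (by rw [e])) with h | h
      · exact h
      · exact absurd h.1 hxy
    · right
      intro x hx y hy hxy hadj
      obtain ⟨a, ha, rfl⟩ := Finset.mem_image.1 hx
      obtain ⟨b, hb, rfl⟩ := Finset.mem_image.1 hy
      exact hS a ha b hb (fun e => hxy (by rw [e])) (Or.inl hadj)
  have h2 : ∀ u ∈ S.image Prod.fst, (S.filter (fun p => p.1 = u)).card ≤ t := by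
    intro u hu
    have e : (S.filter (fun p => p.1 = u)).card =
        ((S.filter (fun p => p.1 = u)).image Prod.snd).card := by
      symm
      apply Finset.card_image_of_injOn
      intro p hp q hq hpq
      simp only [Finset.coe_filter, Set.mem_setOf_eq] at hp hq
      exact Prod.ext (hp.2.trans hq.2.symm) hpq
    rw [e]
    apply hG
    rcases hS with hS | hS
    · left
      intro x hx y hy hxy
      obtain ⟨a, ha, rfl⟩ := Finset.mem_image.1 hx
      obtain ⟨b, hb, rfl⟩ := Finset.mem_image.1 hy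
      rw [Finset.mem_filter] at ha hb
      rcases hS a ha.1 b hb.1 (fun e => hxy (by rw [e])) with h | h
      · rw [ha.2, hb.2] at h
        exact absurd h (H.loopless.irrefl _)
      · exact h.2
    · right
      intro x hx y hy hxy hadj
      obtain ⟨a, ha, rfl⟩ := Finset.mem_image.1 hx
      obtain ⟨b, hb, rfl⟩ := Finset.mem_image.1 hy
      rw [Finset.mem_filter] at ha hb
      exact hS a ha.1 b hb.1 (fun e => hxy (by rw [e])) (Or.inr ⟨ha.2.trans hb.2.symm, hadj⟩)
  calc S.card = ∑ u ∈ S.image Prod.fst, (S.filter (fun p => p.1 = u)).card :=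
        Finset.card_eq_sum_card_image Prod.fst S
    _ ≤ ∑ _u ∈ S.image Prod.fst, t := Finset.sum_le_sum h2
    _ = (S.image Prod.fst).card * t := by rw [Finset.sum_const, smul_eq_mul]
    _ ≤ s * t := Nat.mul_le_mul_right _ h1

lemma mono_map {V' : Type} {G : SimpleGraph V} {t : ℕ} (f : V ≃ V')
    (hG : ∀ S : Finset V, Mono G S → S.card ≤ t) (S : Finset V')
    (hS : Mono (G.map f.toEmbedding) S) : S.card ≤ t := by
  classical
  have hadj : ∀ x y : V', (G.map f.toEmbedding).Adj x y ↔ G.Adj (f.symm x) (f.symm y) := by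
    intro x y
    rw [SimpleGraph.map_adj]
    constructor
    · rintro ⟨u, v, h, rfl, rfl⟩
      simpa using h
    · intro h
      exact ⟨_, _, h, by simp, by simp⟩
  have := hG (S.map f.symm.toEmbedding) (by
    rcases hS with hS | hS
    · left
      intro x hx y hy hxy
      rw [Finset.mem_map] at hx hy
      obtain ⟨a, ha, rfl⟩ := hx
      obtain ⟨b, hb, rfl⟩ := hy
      have := hS a ha b hb (fun e => hxy (by rw [e]))
      rw [hadj] at this
      exact this
    · right
      intro x hx y hy hxy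
      rw [Finset.mem_map] at hx hy
      obtain ⟨a, ha, rfl⟩ := hx
      obtain ⟨b, hb, rfl⟩ := hy
      have := hS a ha b hb (fun e => hxy (by rw [e]))
      rw [hadj] at this
      exact this)
  rwa [Finset.card_map] at this

end Q116.CW
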