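import Pool.Agent.Q116.CW.Cut

/-! # Clique-width: the upper bound for the diagonal Ramsey numbers -/

set_option autoImplicit false

namespace Q116.CW

variable {V : Type} [DecidableEq V]

/-- Every nonempty set `U` of vertices contains a clique `Q` and an independent set `I` with
`|Q| |I| ≥ |U| ^ ε`, if `(3 w) ^ (-ε) + 12 ^ (-ε) ≥ 1`. -/
theorem clique_mul_indep {w : ℕ} {T : Finset V} {H : SimpleGraph V} {l : V → Fin w}
    (h : Built w T H l) (hw : 1 ≤ w) (ε : ℝ) (hε : 0 ≤ ε)
    (hsum : 1 ≤ ((3 : ℝ) * w) ^ (-ε) + (12 : ℝ) ^ (-ε)) :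
    ∀ (n : ℕ) (U : Finset V), U.card = n → U.Nonempty → U ⊆ T → ∃ Q ⊆ U, ∃ I ⊆ U,
      (∀ x ∈ Q, ∀ y ∈ Q, x ≠ y → H.Adj x y) ∧ (∀ x ∈ I, ∀ y ∈ I, x ≠ y → ¬ H.Adj x y) ∧
      ((U.card : ℝ)) ^ ε ≤ (Q.card : ℝ) * I.card := by
  intro n
  induction n using Nat.strong_induction_on with
  | _ n ih =>
  intro U hUn hUne hUT
  by_cases h2 : 2 ≤ U.card
  · obtain ⟨A, hAU, B, hBU, hAB, hA, hB, hhom⟩ := hom_pair h U hUT h2
    have hAne : A.Nonempty := by
      rw [← Finset.card_pos]
      rcases Nat.eq_zero_or_pos A.card with h0 | h0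
      · rw [h0, mul_zero] at hA; omega
      · exact h0
    have hBne : B.Nonempty := by
      rw [← Finset.card_pos]
      omega
    have hABc : A.card + B.card ≤ U.card := by
      rw [← Finset.card_union_of_disjoint hAB]
      exact Finset.card_le_card (Finset.union_subset hAU hBU)
    have hA0 := hAne.card_pos
    have hB0 := hBne.card_pos
    obtain ⟨QA, hQA, IA, hIA, q1, i1, e1⟩ := ih A.card (by omega) A rfl hAne (hAU.trans hUT)
    obtain ⟨QB, hQB, IB, hIB, q2, i2, e2⟩ := ih B.card (by omega) B rfl hBne (hBU.trans hUT)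
    have hU0 : (0 : ℝ) < U.card := by exact_mod_cast hUne.card_pos
    have hw0 : (0 : ℝ) < 3 * w := by positivity
    -- the two lower bounds
    have f1 : (U.card : ℝ) ^ ε * (3 * w : ℝ) ^ (-ε) ≤ (A.card : ℝ) ^ ε := by
      have : (U.card : ℝ) / (3 * w) ≤ A.card := by
        rw [div_le_iff₀ hw0]
        have : (U.card : ℝ) ≤ 3 * w * A.card := by exact_mod_cast hA
        linarith
      calc (U.card : ℝ) ^ ε * (3 * w : ℝ) ^ (-ε) = ((U.card : ℝ) / (3 * w)) ^ ε := by
            rw [Real.div_rpow hU0.le hw0.le, Real.rpow_neg hw0.le, div_eq_mul_inv]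
        _ ≤ (A.card : ℝ) ^ ε := Real.rpow_le_rpow (by positivity) this hε
    have f2 : (U.card : ℝ) ^ ε * (12 : ℝ) ^ (-ε) ≤ (B.card : ℝ) ^ ε := by
      have : (U.card : ℝ) / 12 ≤ B.card := by
        rw [div_le_iff₀ (by norm_num)]
        have : (U.card : ℝ) ≤ 12 * B.card := by exact_mod_cast hB
        linarith
      calc (U.card : ℝ) ^ ε * (12 : ℝ) ^ (-ε) = ((U.card : ℝ) / 12) ^ ε := by
            rw [Real.div_rpow hU0.le (by norm_num), Real.rpow_neg (by norm_num), div_eq_mul_inv]
        _ ≤ (B.card : ℝ) ^ ε := Real.rpow_le_rpow (by positivity) this hε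
    have f3 : (U.card : ℝ) ^ ε ≤ (A.card : ℝ) ^ ε + (B.card : ℝ) ^ ε := by
      have : (0 : ℝ) ≤ (U.card : ℝ) ^ ε := by positivity
      nlinarith
    have f4 : (U.card : ℝ) ^ ε ≤ (QA.card : ℝ) * IA.card + (QB.card : ℝ) * IB.card := by
      linarith
    have dQ : Disjoint QA QB := Finset.disjoint_of_subset_left hQA
      (Finset.disjoint_of_subset_right hQB hAB)
    have dI : Disjoint IA IB := Finset.disjoint_of_subset_left hIA
      (Finset.disjoint_of_subset_right hIB hAB)
    rcases hhom with hc | hc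
    · -- complete
      have hQ : ∀ x ∈ QA ∪ QB, ∀ y ∈ QA ∪ QB, x ≠ y → H.Adj x y := by
        intro x hx y hy hxy
        rw [Finset.mem_union] at hx hy
        rcases hx with hx | hx <;> rcases hy with hy | hy
        · exact q1 x hx y hy hxy
        · exact hc x (hQA hx) y (hQB hy)
        · exact (hc y (hQA hy) x (hQB hx)).symm
        · exact q2 x hx y hy hxy
      have hcQ : ((QA ∪ QB).card : ℝ) = QA.card + QB.card := by
        rw [Finset.card_union_of_disjoint dQ]; push_cast; ring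
      rcases le_total IB.card IA.card with h5 | h5
      · refine ⟨QA ∪ QB, Finset.union_subset (hQA.trans hAU) (hQB.trans hBU), IA, hIA.trans hAU,
          hQ, i1, ?_⟩
        rw [hcQ]
        have : (IB.card : ℝ) ≤ IA.card := by exact_mod_cast h5
        have : (QB.card : ℝ) * IB.card ≤ QB.card * IA.card := by gcongr
        linarith
      · refine ⟨QA ∪ QB, Finset.union_subset (hQA.trans hAU) (hQB.trans hBU), IB, hIB.trans hBU,
          hQ, i2, ?_⟩
        rw [hcQ]
        have : (IA.card : ℝ) ≤ IB.card := by exact_mod_cast h5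
        have : (QA.card : ℝ) * IA.card ≤ QA.card * IB.card := by gcongr
        linarith
    · -- anticomplete
      have hI : ∀ x ∈ IA ∪ IB, ∀ y ∈ IA ∪ IB, x ≠ y → ¬ H.Adj x y := by
        intro x hx y hy hxy
        rw [Finset.mem_union] at hx hy
        rcases hx with hx | hx <;> rcases hy with hy | hy
        · exact i1 x hx y hy hxy
        · exact hc x (hIA hx) y (hIB hy)
        · exact fun hh => hc y (hIA hy) x (hIB hx) hh.symm
        · exact i2 x hx y hy hxy
      have hcI : ((IA ∪ IB).card : ℝ) = IA.card + IB.card := by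
        rw [Finset.card_union_of_disjoint dI]; push_cast; ring
      rcases le_total QB.card QA.card with h5 | h5
      · refine ⟨QA, hQA.trans hAU, IA ∪ IB, Finset.union_subset (hIA.trans hAU) (hIB.trans hBU),
          q1, hI, ?_⟩
        rw [hcI]
        have : (QB.card : ℝ) ≤ QA.card := by exact_mod_cast h5
        have : (QB.card : ℝ) * IB.card ≤ QA.card * IB.card := by gcongr
        linarith
      · refine ⟨QB, hQB.trans hBU, IA ∪ IB, Finset.union_subset (hIA.trans hAU) (hIB.trans hBU),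
          q2, hI, ?_⟩
        rw [hcI]
        have : (QA.card : ℝ) ≤ QB.card := by exact_mod_cast h5
        have : (QA.card : ℝ) * IA.card ≤ QB.card * IA.card := by gcongr
        linarith
  · have h1 : U.card = 1 := by
      have := hUne.card_pos
      omega
    obtain ⟨u, hu⟩ := Finset.card_eq_one.1 h1
    refine ⟨U, subset_rfl, U, subset_rfl, ?_, ?_, ?_⟩
    · intro x hx y hy hxy
      rw [hu, Finset.mem_singleton] at hx hy
      exact absurd (hx.trans hy.symm) hxy
    · intro x hx y hy hxy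
      rw [hu, Finset.mem_singleton] at hx hy
      exact absurd (hx.trans hy.symm) hxy
    · rw [h1]; simp

lemma log_le_div_e {y : ℝ} (hy : 0 < y) : Real.log y ≤ y / Real.exp 1 := by
  have h := Real.add_one_le_exp (Real.log y - 1)
  have e : Real.exp (Real.log y - 1) = y / Real.exp 1 := by
    rw [Real.exp_sub, Real.exp_log hy]
  rw [e] at h
  linarith

lemma log_twelve_le : Real.log 12 ≤ 5 / 2 := by
  have h1 : Real.log ((12 : ℝ) ^ 2) ≤ 5 := by
    rw [Real.log_le_iff_le_exp (by positivity)]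
    have h2 : (2.7182 : ℝ) ≤ Real.exp 1 := by
      have := Real.exp_one_gt_d9
      linarith
    calc ((12 : ℝ) ^ 2) ≤ 2.7182 ^ 5 := by norm_num
      _ ≤ (Real.exp 1) ^ 5 := by gcongr
      _ = Real.exp 5 := by rw [← Real.exp_nat_mul]; norm_num
  rw [Real.log_pow] at h1
  push_cast at h1
  linarith

lemma one_le_log_three_mul {w : ℕ} (hw : 1 ≤ w) : 1.09 ≤ Real.log (3 * w) := by
  have h1 : (1.09 : ℝ) ≤ Real.log 3 := by
    rw [Real.le_log_iff_exp_le (by norm_num)]
    have h2 : Real.exp 1 ≤ 2.7182818286 := by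
      have := Real.exp_one_lt_d9
      linarith
    have h3 : Real.exp (0.09 : ℝ) ≤ 1.1 := by
      have h4 := Real.one_sub_le_exp_neg (0.09 : ℝ)
      rw [Real.exp_neg] at h4
      have h5 := Real.exp_pos (0.09 : ℝ)
      have h6 : (0.91 : ℝ) * Real.exp 0.09 ≤ 1 := by
        have : (1 - 0.09 : ℝ) * Real.exp 0.09 ≤ (Real.exp 0.09)⁻¹ * Real.exp 0.09 := by gcongr
        rw [inv_mul_cancel₀ h5.ne'] at this
        linarith
      nlinarith
    have : Real.exp (1.09 : ℝ) = Real.exp 1 * Real.exp 0.09 := by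
      rw [← Real.exp_add]; norm_num
    rw [this]
    calc Real.exp 1 * Real.exp 0.09 ≤ 2.7182818286 * 1.1 := by gcongr
      _ ≤ 3 := by norm_num
  refine h1.trans (Real.log_le_log (by norm_num) ?_)
  have : (1 : ℝ) ≤ w := by exact_mod_cast hw
  linarith

/-- `L = log (3 w)`. -/
lemma sum_ge_one {w : ℕ} (hw : 1 ≤ w) :
    1 ≤ ((3 : ℝ) * w) ^ (-(Real.log (Real.log (3 * w)) / (2 * Real.log (3 * w)))) +
      (12 : ℝ) ^ (-(Real.log (Real.log (3 * w)) / (2 * Real.log (3 * w)))) := by
  set L := Real.log (3 * w) with hL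
  have hL1 : 1.09 ≤ L := one_le_log_three_mul hw
  have hL0 : 0 < L := by linarith
  have hw0 : (0 : ℝ) < 3 * w := by positivity
  have hlogL : 0 ≤ Real.log L := Real.log_nonneg (by linarith)
  have e1 : ((3 : ℝ) * w) ^ (-(Real.log L / (2 * L))) = (Real.sqrt L)⁻¹ := by
    rw [Real.rpow_def_of_pos hw0, ← hL]
    have : L * -(Real.log L / (2 * L)) = - Real.log (Real.sqrt L) := by
      rw [Real.log_sqrt hL0.le]
      field_simp
    rw [this, Real.exp_neg, Real.exp_log (Real.sqrt_pos.2 hL0)]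
  have e2 : 1 - (Real.log L / (2 * L)) * Real.log 12 ≤
      (12 : ℝ) ^ (-(Real.log L / (2 * L))) := by
    rw [Real.rpow_def_of_pos (by norm_num)]
    have := Real.add_one_le_exp (Real.log 12 * -(Real.log L / (2 * L)))
    linarith
  have hs0 : 0 < Real.sqrt L := Real.sqrt_pos.2 hL0
  have hss : Real.sqrt L * Real.sqrt L = L := Real.mul_self_sqrt hL0.le
  have e3 : Real.log L ≤ 2 * (Real.sqrt L / Real.exp 1) := by
    have h1 : Real.log L = 2 * Real.log (Real.sqrt L) := by
      rw [Real.log_sqrt hL0.le]; ring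
    rw [h1]
    have := log_le_div_e hs0
    linarith
  have he : (2.7182 : ℝ) ≤ Real.exp 1 := by
    have := Real.exp_one_gt_d9
    linarith
  have e4 : Real.log L ≤ Real.sqrt L * (2 / 2.7182) := by
    refine e3.trans ?_
    have h7 : Real.sqrt L / Real.exp 1 ≤ Real.sqrt L / 2.7182 :=
      div_le_div_of_nonneg_left hs0.le (by norm_num) he
    calc 2 * (Real.sqrt L / Real.exp 1) ≤ 2 * (Real.sqrt L / 2.7182) := by linarith
      _ = Real.sqrt L * (2 / 2.7182) := by ring
  have e5 : (Real.log L / (2 * L)) * Real.log 12 ≤ (Real.sqrt L)⁻¹ := by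
    have h12 := log_twelve_le
    have h12' : 0 ≤ Real.log 12 := Real.log_nonneg (by norm_num)
    calc (Real.log L / (2 * L)) * Real.log 12
        ≤ (Real.sqrt L * (2 / 2.7182) / (2 * L)) * (5 / 2) := by gcongr
      _ = (5 / (2 * 2.7182)) * (Real.sqrt L / L) := by ring
      _ = (5 / (2 * 2.7182)) * (Real.sqrt L)⁻¹ := by
          congr 1
          rw [div_eq_iff hL0.ne', eq_comm, inv_mul_eq_iff_eq_mul₀ hs0.ne']
          exact hss.symm
      _ ≤ 1 * (Real.sqrt L)⁻¹ := by
          gcongr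
          norm_num
      _ = _ := one_mul _
  rw [e1]
  linarith

/-- **Upper bound.** -/
theorem upper {w k N : ℕ} (hw : 1 ≤ w) (hk : 2 ≤ k) (hN : 1 ≤ N) (G : SimpleGraph (Fin N))
    (hG : CliqueWidthLe w G) (hmono : ∀ S : Finset (Fin N), Mono G S → S.card < k) :
    Real.log N ≤ 4 * Real.log k * (Real.log (3 * w) / Real.log (Real.log (3 * w))) := by
  obtain ⟨l, hl⟩ := hG
  set L := Real.log (3 * w) with hL
  have hL1 : 1.09 ≤ L := one_le_log_three_mul hw
  have hL0 : 0 < L := by linarith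
  have hlogL : 0 < Real.log L := Real.log_pos (by linarith)
  set ε := Real.log L / (2 * L) with hε
  have hε0 : 0 < ε := by positivity
  haveI : Nonempty (Fin N) := ⟨⟨0, hN⟩⟩
  obtain ⟨Q, -, I, -, hQ, hI, hle⟩ := clique_mul_indep hl hw ε hε0.le (sum_ge_one hw) N
    Finset.univ (by simp) Finset.univ_nonempty subset_rfl
  have h1 := hmono Q (Or.inl hQ)
  have h2 := hmono I (Or.inr hI)
  have hk0 : (0 : ℝ) < k := by positivity
  have hN0 : (0 : ℝ) < N := by exact_mod_cast hN
  have h3 : (N : ℝ) ^ ε ≤ (k : ℝ) * k := by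
    rw [Finset.card_univ, Fintype.card_fin] at hle
    refine hle.trans ?_
    have h1' : (Q.card : ℝ) ≤ k := by exact_mod_cast h1.le
    have h2' : (I.card : ℝ) ≤ k := by exact_mod_cast h2.le
    gcongr
  have h4 := Real.log_le_log (by positivity) h3
  rw [Real.log_rpow hN0, Real.log_mul hk0.ne' hk0.ne'] at h4
  have h5 : Real.log N = ε * Real.log N / ε := by field_simp
  rw [h5, div_le_iff₀ hε0]
  have h6 : 4 * Real.log k * (L / Real.log L) * ε = 2 * Real.log k := by
    rw [hε]
    field_simp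
    ring
  rw [h6]
  linarith

end Q116.CW
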