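import Pool.Agent.Q116.CW.Lex
import Pool.Agent.Q116.CW.Upper
import Pool.Agent.H818R2.Ram.Erdos

/-! # Clique-width: the lower bound for the diagonal Ramsey numbers -/

set_option autoImplicit false

namespace Q116.CW

open Pool.Agent.H818R2.Ram

lemma exists_base {w : ℕ} (hw : 2 ≤ w) : ∃ H : SimpleGraph (Fin w),
    ∀ S : Finset (Fin w), Mono H S → S.card ≤ Nat.log 2 (w ^ 2) := by
  classical
  set s := Nat.log 2 (w ^ 2) with hs
  have h1 : w ^ 2 < 2 ^ (s + 1) := Nat.lt_pow_succ_log_self (by norm_num) _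
  have h2 : 2 ≤ s := by
    apply Nat.le_log_of_pow_le (by norm_num)
    nlinarith
  have h3 := erdos_lower (k := s + 1) (by omega)
  have h4 : w < R (s + 1) (s + 1) := by
    by_contra hcon
    push Not at hcon
    have : (R (s + 1) (s + 1)) ^ 2 ≤ w ^ 2 := Nat.pow_le_pow_left hcon 2
    omega
  obtain ⟨H, hr, hb⟩ := exists_coloring h4
  refine ⟨H, ?_⟩
  intro S hS
  by_contra hcon
  push Not at hcon
  rcases hS with hS | hS
  · apply hr
    refine HasRed.le ⟨S, Finset.subset_univ _, ?_⟩ (Nat.succ_le_of_lt hcon)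
    rw [SimpleGraph.isNClique_iff]
    refine ⟨?_, rfl⟩
    intro x hx y hy hxy
    exact hS x hx y hy hxy
  · apply hb
    refine HasBlue.le ⟨S, Finset.subset_univ _, ?_⟩ (Nat.succ_le_of_lt hcon)
    rw [SimpleGraph.isNClique_iff]
    refine ⟨?_, rfl⟩
    intro x hx y hy hxy
    rw [SimpleGraph.compl_adj]
    exact ⟨hxy, hS x hx y hy hxy⟩

/-- **Lower bound**: iterated lexicographic products. -/
theorem exists_power {w : ℕ} (hw : 2 ≤ w) (j : ℕ) : ∃ G : SimpleGraph (Fin (w ^ j)),
    CliqueWidthLe w G ∧ ∀ S : Finset (Fin (w ^ j)), Mono G S →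
      S.card ≤ (Nat.log 2 (w ^ 2)) ^ j := by
  classical
  obtain ⟨H, hH⟩ := exists_base hw
  induction j with
  | zero =>
    refine ⟨⊥, ⟨fun _ => ⟨0, by omega⟩, ?_⟩, ?_⟩
    · have h := Built.vertex (w := w) (0 : Fin 1) (fun _ => (⟨0, by omega⟩ : Fin w))
      exact h
    · intro S _
      refine (Finset.card_le_univ S).trans ?_
      simp
  | succ j ih =>
    obtain ⟨G, hG1, hG2⟩ := ih
    let e : Fin w × Fin (w ^ j) ≃ Fin (w ^ (j + 1)) :=
      finProdFinEquiv.trans (finCongr (by rw [pow_succ, mul_comm]))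
    refine ⟨(lex H G).map e.toEmbedding, (cliqueWidth_lex hG1 (by omega) H).map_equiv e, ?_⟩
    intro S hS
    refine (mono_map e (mono_lex hH hG2) S hS).trans (le_of_eq ?_)
    ring

lemma log_two_gt : (0.69 : ℝ) < Real.log 2 := by
  have := Real.log_two_gt_d9
  linarith

lemma le_log3 : (1.09 : ℝ) ≤ Real.log 3 := by
  have := one_le_log_three_mul (w := 1) le_rfl
  simpa using this

/-- `L / log L` for `L = log (3 w)` is the exponent of the Ramsey numbers. -/
theorem lower {w k : ℕ} (hw : 2 ≤ w) (hk : Nat.log 2 (w ^ 2) < k) :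
    ∃ (N : ℕ) (G : SimpleGraph (Fin N)), CliqueWidthLe w G ∧
      (∀ S : Finset (Fin N), Mono G S → S.card < k) ∧
      1 / 12 * Real.log k * (Real.log (3 * w) / Real.log (Real.log (3 * w))) ≤ Real.log N := by
  set s := Nat.log 2 (w ^ 2) with hs
  have h2 : 2 ≤ s := by
    apply Nat.le_log_of_pow_le (by norm_num)
    nlinarith
  set j := Nat.log s (k - 1) with hj
  have hj1 : 1 ≤ j := by
    apply Nat.le_log_of_pow_le (by omega)
    rw [pow_one]
    omega
  have hj2 : s ^ j ≤ k - 1 := Nat.pow_log_le_self _ (by omega)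
  have hj3 : k ≤ s ^ (j + 1) := by
    have h : k - 1 < s ^ (j + 1) := Nat.lt_pow_succ_log_self (b := s) (by omega) (k - 1)
    omega
  obtain ⟨G, hG1, hG2⟩ := exists_power hw j
  refine ⟨w ^ j, G, hG1, fun S hS => ?_, ?_⟩
  · have h : S.card ≤ s ^ j := hG2 S hS
    omega
  · -- numerics
    have hw' : (2 : ℝ) ≤ w := by exact_mod_cast hw
    have hw0 : (0 : ℝ) < w := by linarith
    have hk0 : (0 : ℝ) < k := by
      have : 0 < k := by omega
      exact_mod_cast this
    have hlw : 0.69 < Real.log w := by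
      have := Real.log_le_log (by norm_num) hw'
      have := log_two_gt
      linarith
    have hs0 : (2 : ℝ) ≤ s := by exact_mod_cast h2
    have hls : 0 < Real.log s := Real.log_pos (by linarith)
    set L := Real.log (3 * w) with hL
    have hLw : L = Real.log 3 + Real.log w := by
      rw [hL, Real.log_mul (by norm_num) hw0.ne']
    have hlog3 : (1.09 : ℝ) ≤ Real.log 3 := le_log3
    have hlog3' : Real.log 3 ≤ 2 * Real.log w := by
      have h := Real.log_le_log (x := 3) (y := (w : ℝ) ^ 2) (by norm_num) (by nlinarith)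
      rw [Real.log_pow] at h
      exact_mod_cast h
    have hL0 : 0 < L := by linarith
    have hlogL : 0 < Real.log L := Real.log_pos (by linarith)
    -- s ≤ 3 log w
    have hs1 : (s : ℝ) ≤ 3 * Real.log w := by
      have h5 : (2 : ℝ) ^ s ≤ (w : ℝ) ^ 2 := by
        have : 2 ^ s ≤ w ^ 2 := Nat.pow_log_le_self _ (by positivity)
        exact_mod_cast this
      have h6 := Real.log_le_log (by positivity) h5
      rw [Real.log_pow, Real.log_pow] at h6
      push_cast at h6
      have := log_two_gt
      nlinarith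
    -- log s ≤ 2 log L
    have hs2 : Real.log s ≤ 2 * Real.log L := by
      have h7 : (s : ℝ) ≤ L ^ 2 := by
        refine hs1.trans ?_
        rw [hLw]
        nlinarith [sq_nonneg (Real.log 3 - Real.log w)]
      have h8 := Real.log_le_log (by linarith) h7
      rw [Real.log_pow] at h8
      push_cast at h8
      exact h8
    have hlogk : Real.log k ≤ (j + 1 : ℕ) * Real.log s := by
      have h9 : (k : ℝ) ≤ (s : ℝ) ^ (j + 1) := by exact_mod_cast hj3
      have h10 := Real.log_le_log hk0 h9
      rw [Real.log_pow] at h10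
      exact h10
    have hjR : (1 : ℝ) ≤ j := by exact_mod_cast hj1
    have hk1 : Real.log k ≤ 4 * j * Real.log L := by
      push_cast at hlogk
      have : ((j : ℝ) + 1) * Real.log s ≤ (2 * j) * Real.log s := by
        gcongr
        linarith
      nlinarith
    have hLw3 : L ≤ 3 * Real.log w := by
      rw [hLw]
      linarith
    push_cast
    rw [Real.log_pow]
    calc 1 / 12 * Real.log k * (L / Real.log L)
        ≤ 1 / 12 * (4 * j * Real.log L) * (L / Real.log L) := by gcongr
      _ = 1 / 3 * j * L := by field_simp; norm_num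
      _ ≤ 1 / 3 * j * (3 * Real.log w) := by gcongr
      _ = j * Real.log w := by ring

end Q116.CW
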