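import Pool.Agent.Q116.CW.Rec2
import Pool.Agent.Q116.CW.Lower

/-! # Clique-width: the Ramsey numbers of colourings of bounded clique-width -/

set_option autoImplicit false

namespace Q116.CW

/-- The least `n` such that for all `N ≥ n` every colouring of the edges of the complete graph on `N`
vertices whose red graph has clique-width at most `w` has `k` vertices all of whose pairs have the
same colour. -/
noncomputable def Rcw (w k : ℕ) : ℕ :=
  sInf {n | ∀ N ≥ n, ∀ G : SimpleGraph (Fin N), CliqueWidthLe w G →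
    ∃ S : Finset (Fin N), S.card = k ∧ Mono G S}

/-- The diagonal Ramsey number `R(k,k)`. -/
noncomputable def ramsey (k : ℕ) : ℕ :=
  sInf {n | ∀ N ≥ n, ∀ G : SimpleGraph (Fin N), ∃ S : Finset (Fin N), S.card = k ∧ Mono G S}

/-- no monochromatic set with `k` elements -/
def Free {V : Type} (k : ℕ) (G : SimpleGraph V) : Prop := ∀ S : Finset V, Mono G S → S.card < k

lemma Mono.subset {V : Type} {G : SimpleGraph V} {S T : Finset V} (h : Mono G S) (hT : T ⊆ S) :
    Mono G T := by
  rcases h with h | h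
  · exact Or.inl fun x hx y hy => h x (hT hx) y (hT hy)
  · exact Or.inr fun x hx y hy => h x (hT hx) y (hT hy)

lemma exists_mono_iff {V : Type} {G : SimpleGraph V} {k : ℕ} :
    (∃ S : Finset V, S.card = k ∧ Mono G S) ↔ ¬ Free k G := by
  unfold Free
  push Not
  constructor
  · rintro ⟨S, h1, h2⟩
    exact ⟨S, h2, h1.ge⟩
  · rintro ⟨S, h1, h2⟩
    obtain ⟨T, hT, hc⟩ := Finset.exists_subset_card_eq h2
    exact ⟨T, hc, h1.subset hT⟩

lemma Free.bd {N k : ℕ} {G : SimpleGraph (Fin N)} (hk : 1 ≤ k) (h : Free k G) :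
    Bd G Finset.univ (k - 1) (k - 1) := by
  constructor
  · intro I _ hI
    have := h I (Or.inr hI)
    omega
  · intro Q _ hQ
    have := h Q (Or.inl hQ)
    omega

lemma Free.card_lt {N k : ℕ} {G : SimpleGraph (Fin N)} (hk : 1 ≤ k) (h : Free k G) :
    N < (2 * (k - 1)).choose (k - 1) := by
  have := Bd.card_le_choose _ (k - 1) (k - 1) rfl _ (h.bd hk)
  rw [Finset.card_univ, Fintype.card_fin, ← two_mul] at this
  omega

lemma ramsey_nonempty {k : ℕ} (hk : 1 ≤ k) :
    {n | ∀ N ≥ n, ∀ G : SimpleGraph (Fin N), ∃ S : Finset (Fin N), S.card = k ∧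
      Mono G S}.Nonempty := by
  refine ⟨(2 * (k - 1)).choose (k - 1), fun N hN G => ?_⟩
  rw [exists_mono_iff]
  intro h
  have := h.card_lt hk
  omega

lemma lt_ramsey {k n : ℕ} (hk : 1 ≤ k) :
    n < ramsey k ↔ ∃ N ≥ n, ∃ G : SimpleGraph (Fin N), Free k G := by
  constructor
  · intro h
    have := Nat.notMem_of_lt_sInf h
    simp only [Set.mem_setOf_eq, exists_mono_iff] at this
    push Not at this
    exact this
  · rintro ⟨N, hN, G, hG⟩
    by_contra hcon
    push Not at hcon
    have h1 := Nat.sInf_mem (ramsey_nonempty hk) N (hcon.trans hN) G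
    rw [exists_mono_iff] at h1
    exact h1 hG

lemma Rcw_nonempty {w k : ℕ} (hk : 1 ≤ k) :
    {n | ∀ N ≥ n, ∀ G : SimpleGraph (Fin N), CliqueWidthLe w G →
      ∃ S : Finset (Fin N), S.card = k ∧ Mono G S}.Nonempty := by
  obtain ⟨n, hn⟩ := ramsey_nonempty hk
  exact ⟨n, fun N hN G _ => hn N hN G⟩

lemma lt_Rcw {w k n : ℕ} (hk : 1 ≤ k) :
    n < Rcw w k ↔ ∃ N ≥ n, ∃ G : SimpleGraph (Fin N), CliqueWidthLe w G ∧ Free k G := by
  constructor
  · intro h
    have := Nat.notMem_of_lt_sInf h
    simp only [Set.mem_setOf_eq, exists_mono_iff] at this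
    push Not at this
    exact this
  · rintro ⟨N, hN, G, hG1, hG2⟩
    by_contra hcon
    push Not at hcon
    have h1 := Nat.sInf_mem (Rcw_nonempty (w := w) hk) N (hcon.trans hN) G hG1
    rw [exists_mono_iff] at h1
    exact h1 hG2

lemma Rcw_le_ramsey {w k : ℕ} (hk : 1 ≤ k) : Rcw w k ≤ ramsey k := by
  by_contra hcon
  push Not at hcon
  obtain ⟨N, hN, G, -, hG⟩ := (lt_Rcw hk).1 hcon
  exact absurd ((lt_ramsey hk).2 ⟨N, hN, G, hG⟩) (lt_irrefl _)

/-- independent labelled vertices -/
lemma built_bot {V : Type} [DecidableEq V] {w : ℕ} (l : V → Fin w) (S : Finset V)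
    (hS : S.Nonempty) : Built w S ⊥ l := by
  induction hS using Finset.Nonempty.cons_induction with
  | singleton a => exact Built.vertex a l
  | cons a A ha hA ih =>
    have h := Built.union (w := w) (l := l) (S := {a}) (T := A)
      (Finset.disjoint_singleton_left.2 ha) (Built.vertex a l) ih
    rw [sup_idem] at h
    have e : {a} ∪ A = Finset.cons a A ha := by
      ext x
      simp
    rwa [e] at h

/-- Every graph on `n ≤ w` vertices has clique-width at most `w`. -/
lemma cliqueWidth_of_card {n w : ℕ} (hn : 1 ≤ n) (hnw : n ≤ w) (G : SimpleGraph (Fin n)) :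
    CliqueWidthLe w G := by
  classical
  let l : Fin n → Fin w := Fin.castLE hnw
  have hl : Function.Injective l := Fin.castLE_injective hnw
  haveI : Nonempty (Fin n) := ⟨⟨0, hn⟩⟩
  refine ⟨l, ?_⟩
  have key : ∀ E : Finset (Fin n × Fin n), Built w Finset.univ
      (SimpleGraph.fromRel (fun u v => (u, v) ∈ E)) l := by
    intro E
    induction E using Finset.induction_on with
    | empty =>
      have h := built_bot l Finset.univ Finset.univ_nonempty
      have e : SimpleGraph.fromRel (fun u v : Fin n => (u, v) ∈ (∅ : Finset (Fin n × Fin n))) =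
          ⊥ := by
        ext u v
        simp
      rw [e]
      exact h
    | @insert p E hp ih =>
      obtain ⟨a, b⟩ := p
      by_cases hab : a = b
      · have e : SimpleGraph.fromRel (fun u v : Fin n => (u, v) ∈ insert (a, b) E) =
            SimpleGraph.fromRel (fun u v : Fin n => (u, v) ∈ E) := by
          ext u v
          simp only [SimpleGraph.fromRel_adj, Finset.mem_insert, Prod.mk.injEq]
          constructor
          · rintro ⟨h1, (⟨rfl, rfl⟩ | h2) | (⟨rfl, rfl⟩ | h2)⟩
            · exact absurd hab h1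
            · exact ⟨h1, Or.inl h2⟩
            · exact absurd hab.symm h1
            · exact ⟨h1, Or.inr h2⟩
          · rintro ⟨h1, h2 | h2⟩
            · exact ⟨h1, Or.inl (Or.inr h2)⟩
            · exact ⟨h1, Or.inr (Or.inr h2)⟩
        rw [e]
        exact ih
      · have h := Built.join (l a) (l b) (fun e => hab (hl e)) ih
        have e : SimpleGraph.fromRel (fun u v : Fin n => (u, v) ∈ E) ⊔
            joinGraph Finset.univ l (l a) (l b) =
            SimpleGraph.fromRel (fun u v : Fin n => (u, v) ∈ insert (a, b) E) := by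
          ext u v
          simp only [SimpleGraph.sup_adj, SimpleGraph.fromRel_adj, joinGraph_adj,
            Finset.mem_insert, Prod.mk.injEq, Finset.mem_univ, true_and, hl.eq_iff]
          tauto
        rwa [e] at h
  have h := key (Finset.univ.filter (fun p : Fin n × Fin n => G.Adj p.1 p.2))
  have e : SimpleGraph.fromRel (fun u v : Fin n => (u, v) ∈
      Finset.univ.filter (fun p : Fin n × Fin n => G.Adj p.1 p.2)) = G := by
    ext u v
    simp only [SimpleGraph.fromRel_adj, Finset.mem_filter, Finset.mem_univ, true_and]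
    constructor
    · rintro ⟨-, h | h⟩
      · exact h
      · exact h.symm
    · intro h
      exact ⟨h.ne, Or.inl h⟩
  rwa [e] at h

lemma free_comap {V V' : Type} {k : ℕ} {G : SimpleGraph V} (f : V' ↪ V) (h : Free k G) :
    Free k (G.comap f) := by
  intro S hS
  have := h (S.map f) (by
    rcases hS with hS | hS
    · left
      intro x hx y hy hxy
      rw [Finset.mem_map] at hx hy
      obtain ⟨a, ha, rfl⟩ := hx
      obtain ⟨b, hb, rfl⟩ := hy
      exact hS a ha b hb (fun e => hxy (by rw [e]))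
    · right
      intro x hx y hy hxy
      rw [Finset.mem_map] at hx hy
      obtain ⟨a, ha, rfl⟩ := hx
      obtain ⟨b, hb, rfl⟩ := hy
      exact hS a ha b hb (fun e => hxy (by rw [e])))
  rwa [Finset.card_map] at this

lemma two_le_ramsey {k : ℕ} (hk : 2 ≤ k) : 2 ≤ ramsey k := by
  have : 1 < ramsey k := by
    rw [lt_ramsey (by omega)]
    refine ⟨1, le_rfl, ⊥, fun S _ => ?_⟩
    have := Finset.card_le_univ S
    rw [Fintype.card_fin] at this
    omega
  exact this

/-- the lower bound in the linear regime -/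
theorem min_le_Rcw {w k : ℕ} (hw : 1 ≤ w) (hk : 2 ≤ k) : min (w + 1) (ramsey k) ≤ Rcw w k := by
  have h2 := two_le_ramsey hk
  obtain ⟨N, hN, G, hG⟩ := (lt_ramsey (k := k) (n := ramsey k - 1) (by omega)).1 (by omega)
  set n := min w (ramsey k - 1) with hn
  have hn1 : 1 ≤ n := by rw [hn, le_min_iff]; omega
  have hnN : n ≤ N := by
    have : n ≤ ramsey k - 1 := min_le_right _ _
    omega
  have h3 : n < Rcw w k := by
    rw [lt_Rcw (by omega)]
    exact ⟨n, le_rfl, G.comap (Fin.castLEEmb hnN), cliqueWidth_of_card hn1 (min_le_left _ _) _,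
      free_comap _ hG⟩
  omega

lemma two_le_Rcw {w k : ℕ} (hw : 1 ≤ w) (hk : 2 ≤ k) : 2 ≤ Rcw w k := by
  have h := min_le_Rcw hw hk
  have h2 := two_le_ramsey hk
  omega

/-- A graph with the number of vertices of the Ramsey number minus one at least. -/
lemma exists_graph {w k : ℕ} (hw : 1 ≤ w) (hk : 2 ≤ k) : ∃ N : ℕ, 1 ≤ N ∧ Rcw w k ≤ 2 * N ∧
    Rcw w k ≤ N + 1 ∧ ∃ G : SimpleGraph (Fin N), CliqueWidthLe w G ∧ Free k G := by
  have h2 := two_le_Rcw hw hk
  obtain ⟨N, hN, G, hG⟩ := (lt_Rcw (w := w) (k := k) (n := Rcw w k - 1) (by omega)).1 (by omega)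
  exact ⟨N, by omega, by omega, by omega, G, hG⟩

end Q116.CW
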