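import Pool.Agent.Q116.CW.Cut

/-! # Clique-width: the recursion with unbalanced cuts -/

set_option autoImplicit false

namespace Q116.CW

variable {V : Type} [DecidableEq V]

def IsCl (H : SimpleGraph V) (Q : Finset V) : Prop := ∀ x ∈ Q, ∀ y ∈ Q, x ≠ y → H.Adj x y

def IsInd (H : SimpleGraph V) (I : Finset V) : Prop := ∀ x ∈ I, ∀ y ∈ I, x ≠ y → ¬ H.Adj x y

/-- independent sets of `U` have at most `a`, cliques at most `b` elements -/
def Bd (H : SimpleGraph V) (U : Finset V) (a b : ℕ) : Prop :=
  (∀ I ⊆ U, IsInd H I → I.card ≤ a) ∧ (∀ Q ⊆ U, IsCl H Q → Q.card ≤ b)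

lemma Bd.mono {H : SimpleGraph V} {U U' : Finset V} {a b a' b' : ℕ} (h : Bd H U a b)
    (hU : U' ⊆ U) (ha : a ≤ a') (hb : b ≤ b') : Bd H U' a' b' :=
  ⟨fun I hI h1 => (h.1 I (hI.trans hU) h1).trans ha,
    fun Q hQ h1 => (h.2 Q (hQ.trans hU) h1).trans hb⟩

lemma isInd_singleton (H : SimpleGraph V) (u : V) : IsInd H {u} := by
  intro x hx y hy hxy
  rw [Finset.mem_singleton] at hx hy
  exact absurd (hx.trans hy.symm) hxy

lemma isCl_singleton (H : SimpleGraph V) (u : V) : IsCl H {u} := by
  intro x hx y hy hxy
  rw [Finset.mem_singleton] at hx hy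
  exact absurd (hx.trans hy.symm) hxy

lemma Bd.empty_left {H : SimpleGraph V} {U : Finset V} {b : ℕ} (h : Bd H U 0 b) : U = ∅ := by
  by_contra hcon
  obtain ⟨u, hu⟩ := Finset.nonempty_iff_ne_empty.2 hcon
  have := h.1 {u} (Finset.singleton_subset_iff.2 hu) (isInd_singleton H u)
  simp at this

lemma Bd.empty_right {H : SimpleGraph V} {U : Finset V} {a : ℕ} (h : Bd H U a 0) : U = ∅ := by
  by_contra hcon
  obtain ⟨u, hu⟩ := Finset.nonempty_iff_ne_empty.2 hcon
  have := h.2 {u} (Finset.singleton_subset_iff.2 hu) (isCl_singleton H u)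
  simp at this

/-- no clique with two vertices: the set is independent -/
lemma Bd.card_le_left {H : SimpleGraph V} {U : Finset V} {a : ℕ} (h : Bd H U a 1) :
    U.card ≤ a := by
  apply h.1 U subset_rfl
  intro x hx y hy hxy hadj
  have := h.2 {x, y} (by
    intro z hz
    simp only [Finset.mem_insert, Finset.mem_singleton] at hz
    rcases hz with rfl | rfl
    · exact hx
    · exact hy) (by
    intro u hu v hv huv
    simp only [Finset.mem_insert, Finset.mem_singleton] at hu hv
    rcases hu with rfl | rfl <;> rcases hv with rfl | rfl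
    · exact absurd rfl huv
    · exact hadj
    · exact hadj.symm
    · exact absurd rfl huv)
  rw [Finset.card_pair hxy] at this
  omega

lemma Bd.card_le_right {H : SimpleGraph V} {U : Finset V} {b : ℕ} (h : Bd H U 1 b) :
    U.card ≤ b := by
  apply h.2 U subset_rfl
  intro x hx y hy hxy
  by_contra hadj
  have := h.1 {x, y} (by
    intro z hz
    simp only [Finset.mem_insert, Finset.mem_singleton] at hz
    rcases hz with rfl | rfl
    · exact hx
    · exact hy) (by
    intro u hu v hv huv
    simp only [Finset.mem_insert, Finset.mem_singleton] at hu hv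
    rcases hu with rfl | rfl <;> rcases hv with rfl | rfl
    · exact absurd rfl huv
    · exact hadj
    · exact fun hh => hadj hh.symm
    · exact absurd rfl huv)
  rw [Finset.card_pair hxy] at this
  omega

/-- The Erdős-Szekeres bound. -/
lemma Bd.card_le_choose {H : SimpleGraph V} : ∀ (n a b : ℕ), a + b = n → ∀ U : Finset V,
    Bd H U a b → U.card + 1 ≤ (a + b).choose a := by
  classical
  intro n
  induction n with
  | zero =>
    intro a b hab U hU
    have ha : a = 0 := by omega
    have hb : b = 0 := by omega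
    subst ha hb
    rw [hU.empty_left]
    simp
  | succ n ih =>
    intro a b hab U hU
    rcases Nat.eq_zero_or_pos a with rfl | ha
    · rw [hU.empty_left]; simp
    rcases Nat.eq_zero_or_pos b with rfl | hb
    · rw [hU.empty_right]; simp
    by_cases hne : U = ∅
    · rw [hne]
      have : 0 < (a + b).choose a := Nat.choose_pos (by omega)
      rw [Finset.card_empty]
      omega
    obtain ⟨u, hu⟩ := Finset.nonempty_iff_ne_empty.2 hne
    obtain ⟨a, rfl⟩ : ∃ a', a = a' + 1 := ⟨a - 1, by omega⟩
    obtain ⟨b, rfl⟩ : ∃ b', b = b' + 1 := ⟨b - 1, by omega⟩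
    have h1 : Bd H ((U.erase u).filter (fun x => H.Adj u x)) (a + 1) b := by
      refine ⟨fun I hI h => hU.1 I (hI.trans ((Finset.filter_subset _ _).trans
        (Finset.erase_subset _ _))) h, fun Q hQ h => ?_⟩
      have huQ : u ∉ Q := fun hh => by
        have := hQ hh
        simp at this
      have := hU.2 (insert u Q) (by
        intro z hz
        rw [Finset.mem_insert] at hz
        rcases hz with rfl | hz
        · exact hu
        · exact Finset.mem_of_mem_erase (Finset.mem_filter.1 (hQ hz)).1) (by
        intro x hx y hy hxy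
        rw [Finset.mem_insert] at hx hy
        rcases hx with rfl | hx <;> rcases hy with rfl | hy
        · exact absurd rfl hxy
        · exact (Finset.mem_filter.1 (hQ hy)).2
        · exact (Finset.mem_filter.1 (hQ hx)).2.symm
        · exact h x hx y hy hxy)
      rw [Finset.card_insert_of_notMem huQ] at this
      omega
    have h2 : Bd H ((U.erase u).filter (fun x => ¬ H.Adj u x)) a (b + 1) := by
      refine ⟨fun I hI h => ?_, fun Q hQ h => hU.2 Q (hQ.trans ((Finset.filter_subset _ _).trans
        (Finset.erase_subset _ _))) h⟩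
      have huI : u ∉ I := fun hh => by
        have := hI hh
        simp at this
      have := hU.1 (insert u I) (by
        intro z hz
        rw [Finset.mem_insert] at hz
        rcases hz with rfl | hz
        · exact hu
        · exact Finset.mem_of_mem_erase (Finset.mem_filter.1 (hI hz)).1) (by
        intro x hx y hy hxy
        rw [Finset.mem_insert] at hx hy
        rcases hx with rfl | hx <;> rcases hy with rfl | hy
        · exact absurd rfl hxy
        · exact (Finset.mem_filter.1 (hI hy)).2
        · exact fun hh => (Finset.mem_filter.1 (hI hx)).2 hh.symm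
        · exact h x hx y hy hxy)
      rw [Finset.card_insert_of_notMem huI] at this
      omega
    have e1 := ih (a + 1) b (by omega) _ h1
    have e2 := ih a (b + 1) (by omega) _ h2
    have e3 : ((U.erase u).filter (fun x => H.Adj u x)).card +
        ((U.erase u).filter (fun x => ¬ H.Adj u x)).card = (U.erase u).card :=
      Finset.card_filter_add_card_filter_not _
    have e4 := Finset.card_erase_add_one hu
    have e5 : (a + 1 + (b + 1)).choose (a + 1) =
        (a + (b + 1)).choose a + (a + 1 + b).choose (a + 1) := by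
      rw [show a + 1 + (b + 1) = (a + 1 + b) + 1 by ring, Nat.choose_succ_succ,
        show a + (b + 1) = a + 1 + b by ring]
    omega

/-- One step: cut off between `n / t` and `2 n / t` vertices; the largest class `A` of vertices of the
small part with the same neighbours in the large part. -/
theorem step {w : ℕ} {T : Finset V} {H : SimpleGraph V} {l : V → Fin w}
    (h : Built w T H l) (U : Finset V) (hU : U ⊆ T) (t : ℕ) (ht : 1 ≤ t) (hn : t ≤ U.card) :
    ∃ A ⊆ U, ∃ P ⊆ U, ∃ M ⊆ U, Disjoint A P ∧ Disjoint A M ∧ U.card ≤ t * w * A.card ∧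
      t * U.card ≤ t * (P.card + M.card) + 3 * U.card ∧
      (∀ a ∈ A, ∀ b ∈ P, H.Adj a b) ∧ (∀ a ∈ A, ∀ b ∈ M, ¬ H.Adj a b) := by
  classical
  have hTU : T ∩ U = U := Finset.inter_eq_right.2 hU
  set m := (U.card + t - 1) / t with hm
  have hm1 : 1 ≤ m := by
    rw [hm, Nat.le_div_iff_mul_le (by omega)]
    omega
  have hmt : m * t ≤ U.card + t - 1 := Nat.div_mul_le_self _ _
  have hmt' : U.card ≤ t * m := by
    have h1 := Nat.lt_div_mul_add (a := U.card + t - 1) (b := t) (by omega)
    rw [← hm] at h1
    have : m * t = t * m := mul_comm _ _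
    omega
  have hmU : m ≤ U.card := by
    by_contra hcon
    push Not at hcon
    have : (U.card + 1) * t ≤ m * t := Nat.mul_le_mul_right _ hcon
    have h2 : (U.card + 1) * t = U.card * t + t := by ring
    have h3 : U.card ≤ U.card * t := Nat.le_mul_of_pos_right _ (by omega)
    omega
  obtain ⟨S, hST, h3, h4, c, hc⟩ := h.cut U m hm1 (by rw [hTU]; exact hmU)
  have hne : (S ∩ U).Nonempty := by
    rw [← Finset.card_pos]; omega
  obtain ⟨u0, hu0⟩ := hne
  have hw : 0 < w := by
    have := (c u0).2
    omega
  obtain ⟨i, -, hi⟩ : ∃ i ∈ (Finset.univ : Finset (Fin w)),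
      (S ∩ U).card ≤ w * ((S ∩ U).filter (fun u => c u = i)).card := by
    by_contra hcon
    push Not at hcon
    have h5 : (S ∩ U).card = ∑ i : Fin w, ((S ∩ U).filter (fun u => c u = i)).card :=
      Finset.card_eq_sum_card_fiberwise (fun u _ => Finset.mem_univ _)
    have h6 : w * (S ∩ U).card = ∑ i : Fin w, w * ((S ∩ U).filter (fun u => c u = i)).card := by
      rw [← Finset.mul_sum, ← h5]
    have h7 : ∑ i : Fin w, w * ((S ∩ U).filter (fun u => c u = i)).card <
        ∑ _i : Fin w, (S ∩ U).card := by
      apply Finset.sum_lt_sum_of_nonempty ⟨⟨0, hw⟩, Finset.mem_univ _⟩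
      intro i hi
      exact hcon i hi
    simp at h7
    rw [← h6] at h7
    omega
  set A := (S ∩ U).filter (fun u => c u = i) with hA
  have hAne : A.Nonempty := by
    rw [← Finset.card_pos]
    rcases Nat.eq_zero_or_pos A.card with h0 | h0
    · rw [h0, mul_zero] at hi
      omega
    · exact h0
  obtain ⟨a0, ha0⟩ := hAne
  have memA : ∀ a ∈ A, a ∈ S ∧ a ∈ U ∧ c a = i := by
    intro a ha
    rw [hA, Finset.mem_filter, Finset.mem_inter] at ha
    tauto
  have hcard : (U \ S).card + (S ∩ U).card = U.card := by
    rw [Finset.inter_comm]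
    exact Finset.card_sdiff_add_card_inter U S
  have hsplit : ((U \ S).filter (fun x => H.Adj a0 x)).card +
      ((U \ S).filter (fun x => ¬ H.Adj a0 x)).card = (U \ S).card :=
    Finset.card_filter_add_card_filter_not _
  have hdisj : ∀ B ⊆ U \ S, Disjoint A B := by
    intro B hB
    rw [Finset.disjoint_left]
    intro a ha hb
    exact (Finset.mem_sdiff.1 (hB hb)).2 (memA a ha).1
  have hsame : ∀ a ∈ A, ∀ x ∈ U \ S, (H.Adj a x ↔ H.Adj a0 x) := by
    intro a ha x hx
    rw [Finset.mem_sdiff] at hx
    exact (hc a (memA a ha).1 a0 (memA a0 ha0).1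
      ((memA a ha).2.2.trans (memA a0 ha0).2.2.symm)).2 x (hU hx.1) hx.2
  refine ⟨A, fun a ha => (memA a ha).2.1, (U \ S).filter (fun x => H.Adj a0 x),
    (Finset.filter_subset _ _).trans Finset.sdiff_subset,
    (U \ S).filter (fun x => ¬ H.Adj a0 x), (Finset.filter_subset _ _).trans Finset.sdiff_subset,
    hdisj _ (Finset.filter_subset _ _), hdisj _ (Finset.filter_subset _ _), ?_, ?_, ?_, ?_⟩
  · calc U.card ≤ t * m := hmt'
      _ ≤ t * (w * A.card) := Nat.mul_le_mul_left _ (h3.trans hi)
      _ = t * w * A.card := by ring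
  · rw [hsplit]
    have h8 : (S ∩ U).card + 1 ≤ 2 * m := h4
    have h9 : t * ((S ∩ U).card + 1) ≤ 2 * (m * t) := by
      calc t * ((S ∩ U).card + 1) ≤ t * (2 * m) := Nat.mul_le_mul_left _ h8
        _ = 2 * (m * t) := by ring
    have h10 : t * U.card = t * (U \ S).card + t * (S ∩ U).card := by
      rw [← mul_add, hcard]
    have h11 : t * ((S ∩ U).card + 1) = t * (S ∩ U).card + t := by ring
    omega
  · intro a ha b hb
    rw [Finset.mem_filter] at hb
    exact (hsame a ha b hb.1).2 hb.2
  · intro a ha b hb
    rw [Finset.mem_filter] at hb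
    exact fun hh => hb.2 ((hsame a ha b hb.1).1 hh)

end Q116.CW
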