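import Pool.Agent.Q116.CW.Rec

/-! # Clique-width: Erdős-Szekeres recursion in large steps -/

set_option autoImplicit false

namespace Q116.CW

variable {V : Type} [DecidableEq V]

lemma not_le_exists {p : Finset V → Prop} {A : Finset V} {a : ℕ}
    (h : ¬ ∀ I ⊆ A, p I → I.card ≤ a) : ∃ I ⊆ A, p I ∧ a + 1 ≤ I.card := by
  push Not at h
  obtain ⟨I, h1, h2, h3⟩ := h
  exact ⟨I, h1, h2, h3⟩

/-- If the sets with independence number at most `a` and the sets with clique number at most `b` have
at most `M0` elements, then so many have the sets with these parameters at most `p a` and `q b`. -/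
theorem recursion {w : ℕ} {T : Finset V} {H : SimpleGraph V} {l : V → Fin w}
    (h : Built w T H l) (hw : 1 ≤ w) (p q a b M0 : ℕ) (hp : 1 ≤ p) (hM : 1 ≤ M0)
    (h1 : ∀ U ⊆ T, Bd H U a (q * b) → U.card ≤ M0)
    (h2 : ∀ U ⊆ T, Bd H U (p * a) b → U.card ≤ M0) :
    ∀ U ⊆ T, Bd H U (p * a) (q * b) →
      U.card ≤ 12 * (p + q) * w * (p + q).choose p * M0 := by
  classical
  set t := 6 * (p + q) with ht
  have ht1 : 6 ≤ t := by omega
  have htR : (6 : ℝ) ≤ t := by exact_mod_cast ht1
  set ρ : ℝ := 1 - 3 / t with hρ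
  have hρ0 : 0 < ρ := by
    rw [hρ, sub_pos, div_lt_one (by linarith)]
    linarith
  have hρ1 : ρ ≤ 1 := by
    rw [hρ]
    have : (0 : ℝ) ≤ 3 / t := by positivity
    linarith
  have hwR : (1 : ℝ) ≤ w := by exact_mod_cast hw
  have hMR : (1 : ℝ) ≤ M0 := by exact_mod_cast hM
  have key : ∀ n i j : ℕ, i + j = n → i ≤ p → j ≤ q → ∀ U ⊆ T, Bd H U (i * a) (j * b) →
      (U.card : ℝ) * ρ ^ (i + j) ≤ t * w * M0 * ((i + j).choose i : ℕ) := by
    intro n
    induction n with
    | zero =>
      intro i j hij hi hj U hUT hU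
      have hi0 : i = 0 := by omega
      have hj0 : j = 0 := by omega
      subst hi0 hj0
      rw [zero_mul, zero_mul] at hU
      rw [hU.empty_left]
      simp
      positivity
    | succ n ih =>
      intro i j hij hi hj U hUT hU
      have hpow1 : ρ ^ (i + j) ≤ 1 := pow_le_one₀ hρ0.le hρ1
      have hpow0 : 0 < ρ ^ (i + j) := pow_pos hρ0 _
      rcases Nat.eq_zero_or_pos i with rfl | hi0
      · rw [zero_mul] at hU
        rw [hU.empty_left]
        simp
        positivity
      rcases Nat.eq_zero_or_pos j with rfl | hj0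
      · rw [zero_mul] at hU
        rw [hU.empty_right]
        simp
        positivity
      have hch : (1 : ℝ) ≤ ((i + j).choose i : ℕ) := by
        exact_mod_cast Nat.choose_pos (by omega)
      -- trivial bound
      have triv : U.card ≤ t * w * M0 →
          (U.card : ℝ) * ρ ^ (i + j) ≤ t * w * M0 * ((i + j).choose i : ℕ) := by
        intro hle
        have hle' : (U.card : ℝ) ≤ t * w * M0 := by exact_mod_cast hle
        calc (U.card : ℝ) * ρ ^ (i + j) ≤ (U.card : ℝ) * 1 := by gcongr
          _ ≤ (t * w * M0) * 1 := by linarith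
          _ ≤ t * w * M0 * ((i + j).choose i : ℕ) := by gcongr
      by_cases hcard : U.card < t
      · apply triv
        calc U.card ≤ t := hcard.le
          _ = t * 1 * 1 := by ring
          _ ≤ t * w * M0 := by gcongr
      push Not at hcard
      obtain ⟨A, hAU, P, hPU, M, hMU, dAP, dAM, e1, e2, e3, e4⟩ :=
        step h U hUT t (by omega) hcard
      by_cases hA1 : ∀ I ⊆ A, IsInd H I → I.card ≤ a
      · have hA : A.card ≤ M0 := by
          apply h1 A (hAU.trans hUT)
          refine ⟨hA1, fun Q hQ hcl => (hU.2 Q (hQ.trans hAU) hcl).trans ?_⟩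
          exact Nat.mul_le_mul_right _ hj
        apply triv
        calc U.card ≤ t * w * A.card := e1
          _ ≤ t * w * M0 := by gcongr
      by_cases hA2 : ∀ Q ⊆ A, IsCl H Q → Q.card ≤ b
      · have hA : A.card ≤ M0 := by
          apply h2 A (hAU.trans hUT)
          refine ⟨fun I hI hcl => (hU.1 I (hI.trans hAU) hcl).trans ?_, hA2⟩
          exact Nat.mul_le_mul_right _ hi
        apply triv
        calc U.card ≤ t * w * A.card := e1
          _ ≤ t * w * M0 := by gcongr
      obtain ⟨I, hIA, hI, hIc⟩ := not_le_exists hA1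
      obtain ⟨Q, hQA, hQ, hQc⟩ := not_le_exists hA2
      obtain ⟨i, rfl⟩ : ∃ i', i = i' + 1 := ⟨i - 1, by omega⟩
      obtain ⟨j, rfl⟩ : ∃ j', j = j' + 1 := ⟨j - 1, by omega⟩
      -- `M`: independent sets are smaller
      have bM : Bd H M (i * a) ((j + 1) * b) := by
        refine ⟨fun I' hI' hind => ?_, fun Q' hQ' hcl => hU.2 Q' (hQ'.trans hMU) hcl⟩
        have hdis : Disjoint I I' := Finset.disjoint_of_subset_left hIA
          (Finset.disjoint_of_subset_right hI' dAM)
        have h5 := hU.1 (I ∪ I') (Finset.union_subset (hIA.trans hAU) (hI'.trans hMU)) (by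
          intro x hx y hy hxy
          rw [Finset.mem_union] at hx hy
          rcases hx with hx | hx <;> rcases hy with hy | hy
          · exact hI x hx y hy hxy
          · exact e4 x (hIA hx) y (hI' hy)
          · exact fun hh => e4 y (hIA hy) x (hI' hx) hh.symm
          · exact hind x hx y hy hxy)
        rw [Finset.card_union_of_disjoint hdis] at h5
        have : (i + 1) * a = i * a + a := by ring
        omega
      have bP : Bd H P ((i + 1) * a) (j * b) := by
        refine ⟨fun I' hI' hind => hU.1 I' (hI'.trans hPU) hind, fun Q' hQ' hcl => ?_⟩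
        have hdis : Disjoint Q Q' := Finset.disjoint_of_subset_left hQA
          (Finset.disjoint_of_subset_right hQ' dAP)
        have h5 := hU.2 (Q ∪ Q') (Finset.union_subset (hQA.trans hAU) (hQ'.trans hPU)) (by
          intro x hx y hy hxy
          rw [Finset.mem_union] at hx hy
          rcases hx with hx | hx <;> rcases hy with hy | hy
          · exact hQ x hx y hy hxy
          · exact e3 x (hQA hx) y (hQ' hy)
          · exact (e3 y (hQA hy) x (hQ' hx)).symm
          · exact hcl x hx y hy hxy)
        rw [Finset.card_union_of_disjoint hdis] at h5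
        have : (j + 1) * b = j * b + b := by ring
        omega
      have iM := ih i (j + 1) (by omega) (by omega) hj M (hMU.trans hUT) bM
      have iP := ih (i + 1) j (by omega) hi (by omega) P (hPU.trans hUT) bP
      have e2' : (U.card : ℝ) * ρ ≤ P.card + M.card := by
        have h6 : (t : ℝ) * U.card ≤ t * (P.card + M.card) + 3 * U.card := by exact_mod_cast e2
        have h7 : (U.card : ℝ) * ρ = U.card - 3 * U.card / t := by
          rw [hρ]; ring
        rw [h7]
        have ht0 : (0 : ℝ) < t := by linarith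
        rw [sub_le_iff_le_add, ← sub_le_iff_le_add', le_div_iff₀ ht0]
        nlinarith
      have n1 : i + 1 + (j + 1) = (i + 1 + j) + 1 := by ring
      have n2 : i + (j + 1) = i + 1 + j := by ring
      rw [n2] at iM
      have hpas : ((i + 1 + (j + 1)).choose (i + 1) : ℕ) =
          (i + 1 + j).choose i + (i + 1 + j).choose (i + 1) := by
        rw [n1, Nat.choose_succ_succ]
      have hpasR : (((i + 1 + (j + 1)).choose (i + 1) : ℕ) : ℝ) =
          ((i + 1 + j).choose i : ℕ) + ((i + 1 + j).choose (i + 1) : ℕ) := by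
        rw [hpas]; push_cast; ring
      rw [hpasR, n1, pow_succ]
      have hpp : 0 < ρ ^ (i + 1 + j) := pow_pos hρ0 _
      calc (U.card : ℝ) * (ρ ^ (i + 1 + j) * ρ) = (U.card * ρ) * ρ ^ (i + 1 + j) := by ring
        _ ≤ (P.card + M.card) * ρ ^ (i + 1 + j) := by gcongr
        _ = P.card * ρ ^ (i + 1 + j) + M.card * ρ ^ (i + 1 + j) := by ring
        _ ≤ t * w * M0 * ((i + 1 + j).choose (i + 1) : ℕ) +
            t * w * M0 * ((i + 1 + j).choose i : ℕ) := add_le_add iP iM
        _ = _ := by ring
  intro U hUT hU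
  have h3 := key (p + q) p q rfl le_rfl le_rfl U hUT hU
  have h4 : (1 : ℝ) / 2 ≤ ρ ^ (p + q) := by
    have hb := one_add_mul_le_pow (a := -(3 / (t : ℝ))) (by
      have : (3 : ℝ) / t ≤ 1 := by
        rw [div_le_one (by linarith)]; linarith
      linarith) (p + q)
    have e : (1 : ℝ) + -(3 / (t : ℝ)) = ρ := by rw [hρ]; ring
    rw [e] at hb
    refine le_trans ?_ hb
    rw [ht]
    have hpq : (0 : ℝ) < p + q := by
      have : (1 : ℝ) ≤ p := by exact_mod_cast hp
      positivity
    push_cast
    field_simp
    norm_num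
  have h5 : (U.card : ℝ) * (1 / 2) ≤ t * w * M0 * ((p + q).choose p : ℕ) := by
    refine le_trans ?_ h3
    gcongr
  have h6 : (U.card : ℝ) ≤ 12 * (p + q) * w * ((p + q).choose p : ℕ) * M0 := by
    have : (t : ℝ) = 6 * (p + q) := by rw [ht]; push_cast; ring
    rw [this] at h5
    linarith
  exact_mod_cast h6

end Q116.CW
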