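import Pool.Agent.Q116.CW.Num

/-! # Clique-width: the staircase -/

set_option autoImplicit false

namespace Q116.CW

variable {V : Type} [DecidableEq V]

/-- Two-parameter induction. -/
theorem grid {w : ℕ} {T : Finset V} {H : SimpleGraph V} {l : V → Fin w}
    (h : Built w T H l) (hw : 1 ≤ w) (p q : ℕ) (hp : 1 ≤ p) (hq : 1 ≤ q) :
    ∀ n i j : ℕ, i + j = n → ∀ U ⊆ T, Bd H U (p ^ (i + 1)) (q ^ (j + 1)) →
      U.card ≤ (12 * (p + q) * w * (p + q).choose p) ^ (i + j) * (p + q).choose p *
        p ^ i * q ^ j := by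
  set G0 := (p + q).choose p with hG0
  set G := 12 * (p + q) * w * G0 with hG
  have hG0p : 1 ≤ G0 := Nat.choose_pos (by omega)
  have hGp : 1 ≤ G := by
    rw [hG]
    have : 0 < 12 * (p + q) * w * G0 := by positivity
    exact this
  have hqG : q ≤ G0 := by
    rw [hG0]
    calc q ≤ (1 + q).choose 1 := by rw [Nat.choose_one_right]; omega
      _ = (1 + q).choose q := by rw [Nat.choose_symm_add]
      _ ≤ (p + q).choose q := Nat.choose_le_choose _ (by omega)
      _ = (p + q).choose p := by rw [Nat.choose_symm_add]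
  have hpG : p ≤ G0 := by
    rw [hG0]
    calc p ≤ (p + 1).choose 1 := by rw [Nat.choose_one_right]; omega
      _ = (p + 1).choose p := by rw [Nat.choose_symm_add]
      _ ≤ (p + q).choose p := Nat.choose_le_choose _ (by omega)
  have hpos : ∀ a b c : ℕ, 1 ≤ G ^ a * G0 * p ^ b * q ^ c := fun a b c => by
    have : 0 < G ^ a * G0 * p ^ b * q ^ c := by positivity
    exact this
  intro n
  induction n with
  | zero =>
    intro i j hij U hUT hU
    have hi : i = 0 := by omega
    have hj : j = 0 := by omega
    subst hi hj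
    simp only [zero_add, pow_one] at hU
    have := Bd.card_le_choose _ p q rfl U hU
    simp only [pow_zero, one_mul, mul_one, add_zero]
    omega
  | succ n ih =>
    intro i j hij U hUT hU
    rcases Nat.eq_zero_or_pos i with rfl | hi
    · obtain ⟨j, rfl⟩ : ∃ j', j = j' + 1 := ⟨j - 1, by omega⟩
      have h1 := recursion h hw p q 1 (q ^ (j + 1)) (G ^ j * G0 * p ^ 0 * q ^ (j + 1)) hp
        (hpos _ _ _)
        (by
          intro U' hU' hbd
          refine hbd.card_le_right.trans ?_
          calc q * q ^ (j + 1) = 1 * q * 1 * q ^ (j + 1) := by ring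
            _ ≤ G ^ j * G0 * p ^ 0 * q ^ (j + 1) := by
              gcongr
              · exact Nat.one_le_pow _ _ hGp
              · simp)
        (by
          intro U' hU' hbd
          have := ih 0 j (by omega) U' hU' (by simpa using hbd)
          rw [zero_add] at this
          refine this.trans ?_
          gcongr
          omega)
        U hUT (by
          have e1 : p ^ (0 + 1) = p * 1 := by ring
          have e2 : q ^ (j + 1 + 1) = q * q ^ (j + 1) := by ring
          rw [e1, e2] at hU
          exact hU)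
      refine h1.trans (le_of_eq ?_)
      rw [← hG0, ← hG, zero_add]
      ring
    rcases Nat.eq_zero_or_pos j with rfl | hj
    · obtain ⟨i, rfl⟩ : ∃ i', i = i' + 1 := ⟨i - 1, by omega⟩
      have h1 := recursion h hw p q (p ^ (i + 1)) 1 (G ^ i * G0 * p ^ (i + 1) * q ^ 0) hp
        (hpos _ _ _)
        (by
          intro U' hU' hbd
          have := ih i 0 (by omega) U' hU' (by simpa using hbd)
          rw [add_zero] at this
          refine this.trans ?_
          gcongr
          omega)
        (by
          intro U' hU' hbd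
          refine hbd.card_le_left.trans ?_
          calc p * p ^ (i + 1) = 1 * p * p ^ (i + 1) * 1 := by ring
            _ ≤ G ^ i * G0 * p ^ (i + 1) * q ^ 0 := by
              gcongr
              · exact Nat.one_le_pow _ _ hGp
              · simp)
        U hUT (by
          have e1 : q ^ (0 + 1) = q * 1 := by ring
          have e2 : p ^ (i + 1 + 1) = p * p ^ (i + 1) := by ring
          rw [e1, e2] at hU
          exact hU)
      refine h1.trans (le_of_eq ?_)
      rw [← hG0, ← hG, add_zero]
      ring
    obtain ⟨i, rfl⟩ : ∃ i', i = i' + 1 := ⟨i - 1, by omega⟩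
    obtain ⟨j, rfl⟩ : ∃ j', j = j' + 1 := ⟨j - 1, by omega⟩
    have h1 := recursion h hw p q (p ^ (i + 1)) (q ^ (j + 1))
      (G ^ (i + j + 1) * G0 * p ^ (i + 1) * q ^ (j + 1)) hp (hpos _ _ _)
      (by
        intro U' hU' hbd
        have e : q * q ^ (j + 1) = q ^ (j + 1 + 1) := by ring
        rw [e] at hbd
        have := ih i (j + 1) (by omega) U' hU' hbd
        refine this.trans ?_
        have e2 : i + (j + 1) = i + j + 1 := by ring
        rw [e2]
        gcongr
        omega)
      (by
        intro U' hU' hbd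
        have e : p * p ^ (i + 1) = p ^ (i + 1 + 1) := by ring
        rw [e] at hbd
        have := ih (i + 1) j (by omega) U' hU' hbd
        refine this.trans ?_
        have e2 : i + 1 + j = i + j + 1 := by ring
        rw [e2]
        gcongr
        omega)
      U hUT (by
        have e1 : q ^ (j + 1 + 1) = q * q ^ (j + 1) := by ring
        have e2 : p ^ (i + 1 + 1) = p * p ^ (i + 1) := by ring
        rw [e1, e2] at hU
        exact hU)
    refine h1.trans (le_of_eq ?_)
    rw [← hG0, ← hG]
    ring

/-- For all `p, q ≥ 2` and the numbers `i, j` with `p ^ i < k ≤ p ^ (i + 1)`,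
`q ^ j < k ≤ q ^ (j + 1)`. -/
theorem Rcw_le_grid {w k p q : ℕ} (hw : 1 ≤ w) (hk : 2 ≤ k) (hp : 2 ≤ p) (hq : 2 ≤ q) :
    ∃ i j : ℕ, p ^ i < k ∧ q ^ j < k ∧
      Rcw w k ≤ 2 * ((12 * (p + q) * w * (p + q).choose p) ^ (i + j) * (p + q).choose p *
        k * k) := by
  obtain ⟨N, hN1, hRN, -, G, ⟨l, hl⟩, hG⟩ := exists_graph hw hk
  have hi1 : k ≤ p ^ Nat.clog p k := Nat.le_pow_clog (by omega) k
  have hi2 : p ^ (Nat.clog p k - 1) < k := Nat.pow_pred_clog_lt_self (by omega) (by omega)
  have hj1 : k ≤ q ^ Nat.clog q k := Nat.le_pow_clog (by omega) k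
  have hj2 : q ^ (Nat.clog q k - 1) < k := Nat.pow_pred_clog_lt_self (by omega) (by omega)
  have hip : 0 < Nat.clog p k := Nat.clog_pos (by omega) hk
  have hjp : 0 < Nat.clog q k := Nat.clog_pos (by omega) hk
  set i := Nat.clog p k - 1 with hi
  set j := Nat.clog q k - 1 with hj
  have ei : Nat.clog p k = i + 1 := by omega
  have ej : Nat.clog q k = j + 1 := by omega
  rw [ei] at hi1
  rw [ej] at hj1
  refine ⟨i, j, hi2, hj2, hRN.trans (Nat.mul_le_mul_left _ ?_)⟩
  have hbd : Bd G Finset.univ (p ^ (i + 1)) (q ^ (j + 1)) :=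
    (hG.bd (by omega : 1 ≤ k)).mono subset_rfl (by omega) (by omega)
  have h1 := grid hl hw p q (by omega) (by omega) (i + j) i j rfl Finset.univ subset_rfl hbd
  rw [Finset.card_univ, Fintype.card_fin] at h1
  refine h1.trans ?_
  gcongr

end Q116.CW
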